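import Pool.Agent.Lib.MP_73b196_co.St.Sep
import Pool.Agent.Lib.MP_73b196_co.St.Comp
import Pool.Agent.Lib.MP_73b196_co.St.Ctr
import Pool.Agent.Lib.MP_73b196_co.St.Rules

/-!
# The second half of the structure theorem (S2): definitions

The language is that of `St/Defs.lean`. In addition:
* `nb Δ K U` : the vertices of `U` which touch `K`,
* `Hol Δ A B C` : a hollow model: connected, disjoint, pairwise touching sets, no face meets all three,
* `IrrS Δ H` : the induced complex on `H` is irreducible,
* `Cov Δ t H` : the vertex `t` is not in `H` and cones the induced complex on `H`,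
* `MinK Δ H K` : `K` is a minimal connected set outside `H` with the property that `nb Δ K H` is not a face,
* `MinT Δ S T A` : `A` is a minimal connected set which touches `S` and `T`,
* `Ext D H t k` : the situation of the extension lemma: `D` has the vertices `H + t + k`, `H` is
  irreducible, `t` cones `H`, the neighbourhood of `k` in `H` is not a face,
* `Cyc Δ Z` : `Z` is a minimal irreducible set without hollow triangles (a cycle).
-/

set_option autoImplicit false

namespace Pool.Agent.Lib.MP_73b196_co.Tw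

open Pool.Agent.Lib.MP_73b196_co.St

variable {V : Type} [Fintype V] [DecidableEq V]

open Classical in
/-- The vertices of `U` which are adjacent to some vertex of `K`. -/
noncomputable def nb (Δ : Set (Finset V)) (K U : Finset V) : Finset V :=
  U.filter fun h => touch Δ {h} K

/-- A hollow model. -/
def Hol (Δ : Set (Finset V)) (A B C : Finset V) : Prop := CM Δ [A, B, C] ∧ ¬ fill Δ [A, B, C]

/-- `H` is a set of vertices, and the induced complex on `H` has no cone vertex and no separating face. -/
structure IrrS (Δ : Set (Finset V)) (H : Finset V) : Prop where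
  sub : H ⊆ vs Δ
  noApex : ∀ p ∈ H, ∃ F ∈ Δ, F ⊆ H ∧ insert p F ∉ Δ
  conn : ∀ F ∈ Δ, F ⊆ H → Conn Δ (H \ F)

/-- The vertex `t` cones the induced complex on `H`. -/
structure Cov (Δ : Set (Finset V)) (t : V) (H : Finset V) : Prop where
  vs : t ∈ vs Δ
  nmem : t ∉ H
  cone : ∀ F ∈ Δ, F ⊆ H → insert t F ∈ Δ

/-- `K` is a minimal connected set outside `H` such that its neighbourhood in `H` is not a face. -/
structure MinK (Δ : Set (Finset V)) (H K : Finset V) : Prop where
  conn : Conn Δ K
  disj : Disjoint K H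
  nf : nb Δ K H ∉ Δ
  min : ∀ K', K' ⊂ K → Conn Δ K' → nb Δ K' H ∈ Δ

/-- `A` is a minimal connected set which touches `S` and `T`. -/
structure MinT (Δ : Set (Finset V)) (S T A : Finset V) : Prop where
  conn : Conn Δ A
  tS : touch Δ A S
  tT : touch Δ A T
  min : ∀ A', A' ⊂ A → Conn Δ A' → touch Δ A' S → touch Δ A' T → False

/-- No hollow triangle. -/
def Flag (Δ : Set (Finset V)) : Prop :=
  ∀ a b c, adj Δ a b → adj Δ a c → adj Δ b c → ({a, b, c} : Finset V) ∈ Δ

/-- A minimal irreducible set in a complex without hollow triangles. -/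
structure Cyc (Δ : Set (Finset V)) (Z : Finset V) : Prop where
  irr : IrrS Δ Z
  min : ∀ Z', Z' ⊂ Z → ¬ IrrS Δ Z'

/-- The situation of the extension lemma. -/
structure Ext (D : Set (Finset V)) (H : Finset V) (t k : V) : Prop where
  inP : InP D
  vs_eq : vs D = insert t (insert k H)
  ht : t ∉ H
  hk : k ∉ H
  htk : t ≠ k
  irr : IrrS D H
  cone : ∀ F ∈ D, F ⊆ H → insert t F ∈ D
  nf : nb D {k} H ∉ D

/-- The conclusion of the extension lemma. -/
def Good (D : Set (Finset V)) (H : Finset V) (t k : V) : Prop :=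
  Apex D t ∨ ∃ u w, u ≠ w ∧ nb D {k} H = {u, w} ∧ ¬ adj D u w

/-- The conclusion of S2. -/
def Two (Δ : Set (Finset V)) : Prop :=
  (∃ x y, EdgeFacet Δ x y) ∨ ¬ NoPair Δ ∨ ∃ a b c, adj Δ a b ∧ adj Δ a c ∧ adj Δ b c ∧
    ({a, b, c} : Finset V) ∉ Δ ∧ ¬ Conn Δ (vs Δ \ {a, b, c})

/-- S2 for complexes with less than `n` vertices. -/
def HypT (V : Type) [Fintype V] [DecidableEq V] (n : ℕ) : Prop :=
  ∀ Δ : Set (Finset V), (vs Δ).card < n → InP Δ → Irr Δ → Two Δ

/-- The extension lemma for complexes with less than `n` vertices. -/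
def HypE (V : Type) [Fintype V] [DecidableEq V] (n : ℕ) : Prop :=
  ∀ (D : Set (Finset V)) (H : Finset V) (t k : V), (vs D).card < n → Ext D H t k → Good D H t k

/-- A minimal counterexample to S2. -/
structure Cex (Δ : Set (Finset V)) : Prop where
  inP : InP Δ
  irr : Irr Δ
  noEF : ∀ x y, ¬ EdgeFacet Δ x y
  noPair : NoPair Δ
  noTri : ∀ a b c, adj Δ a b → adj Δ a c → adj Δ b c → ({a, b, c} : Finset V) ∉ Δ →
    Conn Δ (vs Δ \ {a, b, c})
  hyp : HypT V (vs Δ).card

end Pool.Agent.Lib.MP_73b196_co.Tw
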