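import Pool.Agent.Lib.MP_73b196_co.Tw.Defs
import Pool.Agent.Lib.MP_73b196_co.St.Rules
import Pool.Agent.Lib.MP_73b196_co.St.Spec

/-!
# S2, part 1: statements with complete proofs in the docstrings

One module `Tw/<Name>.lean` for each statement, theorem `Pool.Agent.Lib.MP_73b196_co.Tw.t<Name>`; the statements
under `uses` are hypotheses, e.g. `theorem tJ4 (h1 : StmtJ1) (h3 : StmtJ3) : StmtJ4`. `ThmS`, `ThmA` are
`St.StmtThmS`, `St.StmtThmA` (proved: `St.thmS`, `St.thmA` in `St/S3.lean`), `A6` is `St.StmtA6` (`St.s3A6`).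

Notation in the docstrings: `V = vs Δ`, `nb K` the neighbourhood of `K` in `H`; `x + A` is `insert x A`; a face
meeting given sets is named by its elements in these sets; `F2` is `J1`, `F3` is `J2`. `Hol A B C` is a hollow model.
Vertices and one-element sets are not distinguished.
-/

set_option autoImplicit false

namespace Pool.Agent.Lib.MP_73b196_co.Tw

open Pool.Agent.Lib.MP_73b196_co.St

/-! ## J. Basic lemmas -/

/-- **J1** (F2) If `T` fills all three pairs of a hollow model and `K` touches its three sets, then `T` touches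
`K`. Proof. Suppose not. `CM [K,A,B,C]`, `[A,B,C]` is unfilled, so two of `[K,A,B], [K,A,C], [K,B,C]` are filled
(`k4two`); say (symmetric) `[K,A,B]` and `[K,A,C]`. Let `B' = B ∪ K` (connected). `CM [T,A,B',C]` and all four
triples are filled: `[T,A,B']`, `[T,A,C]`, `[T,B',C]` from the hypotheses, `[A,B',C]` by `[K,A,C]`. `k4all`: a face
meets `T, A, B', C`; it does not meet `K` (a face meeting `T` and `K` gives an edge between them), so it meets
`B`: contradiction to `[A,B,C]` unfilled. -/
def StmtJ1 : Prop := ∀ (V : Type) [Fintype V] [DecidableEq V] (Δ : Set (Finset V))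
  (T K A B C : Finset V), InP Δ → Hol Δ A B C → Conn Δ T → Conn Δ K → Disjoint T K →
  Disjoint T A → Disjoint T B → Disjoint T C → Disjoint K A → Disjoint K B → Disjoint K C →
  fill Δ [T, A, B] → fill Δ [T, A, C] → fill Δ [T, B, C] →
  touch Δ K A → touch Δ K B → touch Δ K C → touch Δ T K

/-- **J2** (F3) Proof. `k5` for `A; T, K; B, C` (and the same for `B`, `C`): `[A,B,C]` is unfilled. -/
def StmtJ2 : Prop := ∀ (V : Type) [Fintype V] [DecidableEq V] (Δ : Set (Finset V))
  (T K A B C : Finset V), InP Δ → CM Δ [T, K, A, B, C] → ¬ fill Δ [A, B, C] →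
  fill Δ [T, K, A] ∧ fill Δ [T, K, B] ∧ fill Δ [T, K, C]

/-- **J3** Proof. `InP.clq_mem`. -/
def StmtJ3 : Prop := ∀ (V : Type) [Fintype V] [DecidableEq V] (Δ : Set (Finset V))
  (N : Finset V), InP Δ → N ⊆ vs Δ → N ∉ Δ →
  (∃ u ∈ N, ∃ w ∈ N, u ≠ w ∧ ¬ adj Δ u w) ∨
    ∃ a ∈ N, ∃ b ∈ N, ∃ c ∈ N, adj Δ a b ∧ adj Δ a c ∧ adj Δ b c ∧ ({a, b, c} : Finset V) ∉ Δ

/-- **J4** (uses `J1`, `J3`) Every vertex of an irreducible set lies in a hollow model. Proof. `N` = the
neighbours of `x` in `H`. (1) `H = x + N`: there is a face `F ⊆ H` with `x + F ∉ Δ`; by `J3` for `x + F` (a clique,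
as `x` is adjacent to all and `F` is a face) there is a hollow triangle in `x + F`, it contains `x` as `F` is a
face: `{x,b,c}`, and `Hol {x} {b} {c}`. (2) Otherwise let `C0` be a component of `H - (x + N)`. Its neighbours in
`H - C0` are in `N`; `nb Δ C0 N` is not a face `F`: otherwise `H - F` is connected, but `C0` has no edges to the
rest, which contains `x`. `J3` for `nb Δ C0 N`: nonadjacent `a, b`: `Hol {x} {a} (b + C0)` (`a, b` are adjacent
to `x` and touch `C0`; `x` does not touch `C0`). A hollow triangle `{a,b,c}`: if `{x,a,b} ∉ Δ` then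
`Hol {x} {a} {b}`, similarly for `{x,a,c}`, `{x,b,c}`; if all three are faces, `J1` with `T = {x}`, `K = C0` gives
`x` touches `C0`: contradiction. -/
def StmtJ4 : Prop := ∀ (V : Type) [Fintype V] [DecidableEq V] (Δ : Set (Finset V))
  (H : Finset V) (x : V), InP Δ → IrrS Δ H → x ∈ H → ∃ B C, B ⊆ H ∧ C ⊆ H ∧ Hol Δ {x} B C

/-- **J5** A hollow model contains an irreducible set. Proof. Induction on the number of elements of
`W = A ∪ B ∪ C`. Suppose `W` is not irreducible. (1) There is `p ∈ W` with `p + F ∈ Δ` for all faces `F ⊆ W`. Say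
`p ∈ A` (symmetric). An edge `{b,c}` between `B` and `C` gives the face `{p,b,c}` meeting `A, B, C`: contradiction.
(2) There is a face `F ⊆ W` with `W - F` not connected. `F` misses one of the three sets, say `C` (symmetric).
Let `E` be the component of `W - F` containing `C`, `A' = A ∩ (E ∪ F)`, `B' = B ∩ (E ∪ F)`. Claim: `Hol A' B' C`;
then `A' ∪ B' ∪ C` is a proper subset of `W` (it does not contain `W - F - E ≠ ∅`). There are no edges between
`E` and `W - F - E`. An edge `{a,c}` between `A` and `C` has `a ∈ E ∪ F`, so `A'` is nonempty and touches `C`; the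
same for `B'`. `A'` is connected: let `A' = S ∪ T` be a splitting without edges between. `F ∩ A` is a clique, so
it is contained in `S` or in `T`, say in `S`; `T ⊆ E` touches neither `S` nor `A - A' ⊆ W - F - E`, so `A` is not
connected: contradiction. `A'` touches `B'`: let `{a,b}` be an edge between `A` and `B`. If `a, b ∈ E ∪ F`, done.
Say `a ∉ E ∪ F`, then `b ∉ E`. As `A'` is nonempty and `A` is connected, there is an edge between `A'` and
`A - A'`, its end in `A'` is in `F`: `f ∈ F ∩ A`. If `b ∈ F` then `f, b` are adjacent (or use the face `F`). If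
`b ∉ F` then similarly there is `g ∈ F ∩ B`, and `f, g` are adjacent. -/
def StmtJ5 : Prop := ∀ (V : Type) [Fintype V] [DecidableEq V] (Δ : Set (Finset V))
  (A B C : Finset V), InP Δ → Hol Δ A B C → ∃ H, H ⊆ A ∪ B ∪ C ∧ IrrS Δ H

/-- **J6** Proof. If `p` does not touch `B`: `{q}` is a face, `H - q` is connected, but `B` touches neither `p` nor
`H - {p,q} - B`. -/
def StmtJ6 : Prop := ∀ (V : Type) [Fintype V] [DecidableEq V] (Δ : Set (Finset V))
  (H B : Finset V) (p q : V), IsCx Δ → IrrS Δ H → p ∈ H → q ∈ H → p ≠ q →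
  IsComp Δ (H \ {p, q}) B → touch Δ {p} B ∧ touch Δ {q} B

/-- **J7** (uses `J6`) Deletion of one of at least three components. Proof. `R = H - {p,q} - B`. No cone vertex
of `H - B`: `p`: `{q}` is a face, `{p,q}` is not; `q` in the same way; `x ∈ R`: if `{x,y} ∈ Δ` for all `y ∈ R` then
`R` is connected (`Conn.attach`), so some `{y}` works. Let `F ⊆ H - B` be a face and `(H - B) - F = S ∪ T` a
splitting without edges between (`(H-B)-F` is not empty: it contains `p` or `q`). `H - F` is connected, and `B`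
touches only `p, q` outside `B`. If `T` contains neither `p` nor `q`, then `T` does not touch `S ∪ B`:
contradiction; the same for `S`. So `p ∈ S`, `q ∈ T` (or reversed), `p, q ∉ F`. `R` has two different
components `R1, R2` (they are components of `H - {p,q}`, so they touch `p` and `q`, `J6`); the face `F` does
not meet both of them; say `F ∩ R1 = ∅`. The connected set `R1 ∪ {p,q}` lies in `S ∪ T` and contains `p, q`:
contradiction. -/
def StmtJ7 : Prop := ∀ (V : Type) [Fintype V] [DecidableEq V] (Δ : Set (Finset V))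
  (H B : Finset V) (p q : V), IsCx Δ → IrrS Δ H → p ∈ H → q ∈ H → p ≠ q → ¬ adj Δ p q →
  IsComp Δ (H \ {p, q}) B → ((H \ {p, q}) \ B).Nonempty → ¬ Conn Δ ((H \ {p, q}) \ B) →
  IrrS Δ (H \ B)

/-- **J8** (uses `J6`) Contraction of one of two components. Proof. `R = H - {p,q} - B`. `p + B` is connected
(`J6`). Let `F ⊆ H - B`. If `F ∈ Δ`, its image is `F`. The edge `{q,b}`, `b ∈ B` (`J6`), has the image `{p,q}`.
Conversely let `F` be the image of `F0 ∈ Δ`. If `F0` does not meet `B` then `F0 = F`. If `F0` meets `B` then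
`F0 ⊆ B ∪ {p,q}` (`F0 ⊆ H`, `B` is a component) and `F ⊆ {p,q}`. IRREDUCIBLE (write `D'` for the contraction).
No cone vertex `x`: if `x ≠ p, q` take the face `{p,q}`: `{x,p,q}` is neither in `Δ` nor equal to `{p,q}`. For
`x = p`: `q` touches `R` (`J6` for `R`, which is a component of `H - {p,q}`): `{q,r} ∈ Δ`, `{p,q,r} ∉ D'`.
`x = q`: the same. Faces: `F = {p,q}`: `(H - B) - F = R` is connected. `F ∈ Δ`: `H - F` is connected in `Δ`. Let
`(H - B) - F = S ∪ T` be a splitting without edges of `D'`. `p` and `q` are adjacent in `D'`, so one of `S, T`,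
say `T`, contains neither `p` nor `q`. Then `T ⊆ R` does not touch `S ∪ B`: contradiction.
(`(H-B)-F` is nonempty as `F` does not contain both `p` and `q`.) -/
def StmtJ8 : Prop := ∀ (V : Type) [Fintype V] [DecidableEq V] (Δ : Set (Finset V))
  (H B : Finset V) (p q : V), InP Δ → IrrS Δ H → p ∈ H → q ∈ H → p ≠ q → ¬ adj Δ p q →
  IsComp Δ (H \ {p, q}) B → Conn Δ ((H \ {p, q}) \ B) →
  (∀ F, F ⊆ H \ B → (F ∈ con Δ (insert p B) p ↔ F ∈ Δ ∨ F = {p, q})) ∧
    IrrS (con Δ (insert p B) p) (H \ B)

/-- **J9** (uses `J1`) Deletion of a component at a hollow triangle. Proof. `R = H - {a,b,c} - B`. `a` touches `B`: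
`{b,c}` is a face, `H - {b,c}` is connected, `B` does not touch `R`. The same for `b`, `c`. No cone vertex of
`H - B`: `a`: `{b,c} ∈ Δ`, `{a,b,c} ∉ Δ`; the same for `b, c`; `x ∈ R`: otherwise `{x,a,b}, {x,a,c}, {x,b,c} ∈ Δ` and
`J1` (`T = {x}`, `K = B`) gives `x` touches `B`. Let `F ⊆ H - B` be a face, `(H-B)-F = S ∪ T` a splitting without
edges. Not all of `a, b, c` are in `F`, the remaining ones are pairwise adjacent, so they are all in one part,
say in `S`. Then `T ⊆ R` does not touch `S ∪ B`, but `H - F` is connected: contradiction. -/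
def StmtJ9 : Prop := ∀ (V : Type) [Fintype V] [DecidableEq V] (Δ : Set (Finset V))
  (H B : Finset V) (a b c : V), InP Δ → IrrS Δ H → a ∈ H → b ∈ H → c ∈ H → adj Δ a b →
  adj Δ a c → adj Δ b c → ({a, b, c} : Finset V) ∉ Δ → IsComp Δ (H \ {a, b, c}) B →
  touch Δ {a} B ∧ touch Δ {b} B ∧ touch Δ {c} B ∧ IrrS Δ (H \ B)

/-- **J10** Proof. `InP.clq_mem` for `t + F`: every triple of `t + F` is a subset of `F` or contains `t`. -/
def StmtJ10 : Prop := ∀ (V : Type) [Fintype V] [DecidableEq V] (Δ : Set (Finset V))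
  (U : Finset V) (t : V), InP Δ → t ∈ vs Δ → t ∉ U → (∀ x ∈ U, adj Δ t x) →
  (∀ x ∈ U, ∀ y ∈ U, adj Δ x y → ({t, x, y} : Finset V) ∈ Δ) →
  ∀ F ∈ Δ, F ⊆ U → insert t F ∈ Δ

/-- **J11** (uses `J1`, `J2`) Proof. `Hol {a} {b} {c}`, `J1` and `J2` with `T = {t}`, `K = {k}`. -/
def StmtJ11 : Prop := ∀ (V : Type) [Fintype V] [DecidableEq V] (Δ : Set (Finset V))
  (a b c t k : V), InP Δ → adj Δ a b → adj Δ a c → adj Δ b c → ({a, b, c} : Finset V) ∉ Δ →
  ({t, a, b} : Finset V) ∈ Δ → ({t, a, c} : Finset V) ∈ Δ → ({t, b, c} : Finset V) ∈ Δ →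
  t ≠ k → t ≠ a → t ≠ b → t ≠ c → adj Δ k a → adj Δ k b → adj Δ k c →
  adj Δ t k ∧ ({t, k, a} : Finset V) ∈ Δ ∧ ({t, k, b} : Finset V) ∈ Δ ∧ ({t, k, c} : Finset V) ∈ Δ

/-- **J12** (uses `J1`, `J2`, `J4`) Proof. Let `x ∈ H`, `Hol {x} B C` with `B, C ⊆ H` from `J4`. `t` fills all
pairs (`t` cones `H`), `k` touches `x, B, C`: `J1`, `J2` give `t ~ k` and `{t,k,x} ∈ Δ`. -/
def StmtJ12 : Prop := ∀ (V : Type) [Fintype V] [DecidableEq V] (Δ : Set (Finset V))
  (H : Finset V) (t k : V), InP Δ → IrrS Δ H → Cov Δ t H → k ∉ H → t ≠ k →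
  (∀ x ∈ H, adj Δ k x) → adj Δ t k ∧ ∀ x ∈ H, ({t, k, x} : Finset V) ∈ Δ

/-- **J13** Adding a minimal connected set. Proof. Suppose that no `k ∈ K` cones `H`. Then no `p ∈ H ∪ K` is a
cone vertex of `H ∪ K` (for `p ∈ H` use `IrrS.noApex`, for `p ∈ K` the assumption; the face `F ⊆ H` works). Let
`F ⊆ H ∪ K` be a face, `(H ∪ K) - F = S ∪ T` a splitting without edges. `H - F` is connected (`F ∩ H` is a face),
so it is contained in one part, say in `S`, and `T ⊆ K - F`. Let `L` be a component of `K - F` which meets `T`;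
`L ⊆ T` (`Conn.sub_of_closed`), and `nb L ⊆ F ∩ H`. If `F ∩ K = ∅`, then `L = K` (`K` is connected) and
`nb K ⊆ F` is a face: contradiction. Let `K' = K - L`; it contains `F ∩ K ≠ ∅`. `K'` is connected: let
`K' = A ∪ B` be a splitting without edges; the clique `F ∩ K` is contained in one part, say `A`; then
`B ⊆ K - F - L` touches neither `A` nor `L`, but `K` is connected. So `nb K'` is a face (`MinK.min`). Every
`f ∈ F ∩ H` is adjacent to the elements of `F ∩ K ⊆ K'`, so `nb L ⊆ F ∩ H ⊆ nb K'` and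
`nb K = nb K' ∪ nb L = nb K'` is a face: contradiction. -/
def StmtJ13 : Prop := ∀ (V : Type) [Fintype V] [DecidableEq V] (Δ : Set (Finset V))
  (H K : Finset V), IsCx Δ → IrrS Δ H → MinK Δ H K →
  (∃ k ∈ K, ∀ F ∈ Δ, F ⊆ H → insert k F ∈ Δ) ∨ IrrS Δ (H ∪ K)

/-- **J14** (uses `ThmS`) The pair lemma. Proof. Suppose `H - {u,w}` is connected. `u + K` is connected.
`D' = ind (con Δ (u + K) u) H = insert {u,w} (ind Δ H)`: a face `F0` of `Δ` with image in `H` which meets `K`
satisfies `F0 - K ⊆ nb K = {u,w}` and its image is contained in `{u,w}`; the edge between `w` and `K` has the image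
`{u,w}`; the faces not meeting `K` are unchanged. So `InP D'`, `vs D' = H`, and `uw` is a facet of `D'` (`u, w` are
not adjacent in `Δ`). `D'` is irreducible: no cone vertex: it would be `u` or `w`, say `u`; `w` has a neighbour
`y ∈ H` (`H` is connected), `{u,w,y}` is not a face of `D'`. `F = {u,w}`: `H - {u,w}` is connected by
assumption; `F ∈ Δ`: `H - F` is connected in `Δ`, so in `D'`. `ThmS` for `(D', u, w)`: a cone vertex `p` of
`D'` minus `uw` is in `H` and is a cone vertex of `ind Δ H`: contradiction. `Spl D' u w {z} X Y`: `H - z` is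
connected in `Δ`, but it is the union of the nonempty sets `X, Y` without edges of `Δ` between (`Spl.no_edge`;
`uw` is not an edge of `Δ`). `Crossed`: `s, t` with `Spl D' u w {s,t} X Y`; `{s,t} ∈ D'` (`s` cones `{t}`), and
`{s,t} ≠ {u,w}`, so `{s,t} ∈ Δ` and `H - {s,t} = X ∪ Y` is connected: contradiction in the same way. -/
def StmtJ14 : Prop := ∀ (V : Type) [Fintype V] [DecidableEq V] (Δ : Set (Finset V))
  (H K : Finset V) (u w : V), InP Δ → IrrS Δ H → Conn Δ K → Disjoint K H → u ≠ w →
  ¬ adj Δ u w → nb Δ K H = {u, w} → ¬ Conn Δ (H \ {u, w})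

/-! ## K. The extension lemma -/

/-- **K0** (uses `J10`, `J12`, `J13`) Proof. `MinK D H {k}`. `J13`: if `k` cones `H` then `k` is adjacent to all
elements of `H` and `J12` gives `adj D t k` and `{t,k,x} ∈ D`; so `t` cones `k + H` (`J10`) and is a cone vertex
of `D`. Otherwise `H ∪ {k}` is irreducible. -/
def StmtK0 : Prop := ∀ (V : Type) [Fintype V] [DecidableEq V] (D : Set (Finset V))
  (H : Finset V) (t k : V), Ext D H t k → Apex D t ∨ Irr (ind D (insert k H))

/-- **K1** (uses `ThmS`) An edge facet at `k`. Proof. Let `Dk = ind D (k + H)`, `ThmS` for `(Dk, k, h)`.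
(C) A cone vertex `p` of `Dk` minus `kh`: `p ∈ H`, and `p + F ∈ D` for all faces `F ⊆ H` (they do not contain `k`):
contradiction to `IrrS.noApex`. (V) `Spl Dk k h {z} X Y`: `z ∈ H`, `H - z` is connected, and it is the union of
`X - k` and `Y`, without edges between (`Spl.no_edge`), `h ∈ Y`. So `X = {k}` and `nb D {k} H ⊆ {z,h}`. As it is
not a face, it is equal to `{z,h}` and `z, h` are not adjacent. (X) `s, t', X, Y`: `s, t' ∈ H` and `{s,t'}` is a
face, `H - {s,t'}` is connected, so `X = {k}` as before. `H = Y ∪ {s,t'}` is coned by `t'`: contradiction. -/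
def StmtK1 : Prop := ∀ (V : Type) [Fintype V] [DecidableEq V] (D : Set (Finset V))
  (H : Finset V) (t k h : V), Ext D H t k → Irr (ind D (insert k H)) → h ∈ H →
  EdgeFacet (ind D (insert k H)) k h → Good D H t k

/-- **K2** (uses `J6`, `J7`, `J8`, `J10`) A separating nonadjacent pair. Proof. `k ∉ {p,q}`: `H - q` and `H - p`
are connected. Let `R = H - {p,q}`; it is nonempty (`H` is connected, `p, q` are not adjacent). If
`nb k ⊆ {p,q}` then `nb k = {p,q}` (it is not a face): `Good`. Now `k` touches `R`, so `R` is not connected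
(`k + R` is not connected), and some component `B` of `R` does not touch `k` (if `k` touches all components
of `R` then `k + R` is connected). `R - B ≠ ∅`. (1) `R - B` not connected: `J7`: `H - B` is irreducible;
`D' = ind D (vs D - B)` satisfies `Ext D' (H - B) t k` with the same neighbourhood of `k`; `HypE` gives `Good`
for `D'`. If `t` is a cone vertex of `D'` then `t ~ k` and `{t,k,x} ∈ D` for all `x ∈ nb k`, so `t` is a cone
vertex of `D` (`J10`). (2) `R - B` connected: `D' = con D (p + B) p`, `vs D' = vs D - B`, and `J8`: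
`Ext D' (H - B) t k`: `t` cones `H - B` in `D'` (the face `{p,q}` is the image of `{b,q}`, `{t,b,q} ∈ D`); as `k` does
not touch `B`, the neighbourhood of `k` is the same set; it is different from `{p,q}`, so it is not a face of
`D'` (`J8`). `HypE`: `Good D' (H-B) t k`. A cone vertex `t` of `D'`: `{t,k} ∈ D`, and `{t,k,x} ∈ D'`, `x ∈ nb k`, is
the image of `F0 ∈ D`; `F0` contains `t, k`, does not meet `B` (`k` does not touch `B`), so `F0 = {t,k,x}`.
Then `J10`. If `nb k = {u,w}` and `u, w` are not adjacent in `D'`, they are not adjacent in `D`. -/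
def StmtK2 : Prop := ∀ (V : Type) [Fintype V] [DecidableEq V] (D : Set (Finset V))
  (H : Finset V) (t k p q : V), HypE V (vs D).card → Ext D H t k → p ∈ insert k H →
  q ∈ insert k H → p ≠ q → ¬ adj D p q → ¬ Conn D (insert k H \ {p, q}) → Good D H t k

/-- **K3** (uses `J10`, `J11`) Proof. Proper subsets of `{a,b,c}` are faces, so `nb k = {a,b,c}`. `J11` (`t` cones
`H`), then `J10`. -/
def StmtK3 : Prop := ∀ (V : Type) [Fintype V] [DecidableEq V] (D : Set (Finset V))
  (H : Finset V) (t k a b c : V), Ext D H t k → a ∈ H → b ∈ H → c ∈ H → adj D a b →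
  adj D a c → adj D b c → ({a, b, c} : Finset V) ∉ D → nb D {k} H ⊆ {a, b, c} → Apex D t

/-- **K4** (uses `J9`, `J10`, `K3`) A separating hollow triangle. Proof. If `k = a` (or `b`, `c`): `H - {b,c}` is
connected. So `a, b, c ∈ H`. If `nb k ⊆ {a,b,c}`: `K3`. Otherwise `k` touches `R = H - {a,b,c}`. `R` is not
connected (otherwise `k + R` is), and some component `B` of `R` does not touch `k`. `J9`: `H - B` is irreducible.
`D' = ind D (vs D - B)` satisfies `Ext D' (H - B) t k`, the neighbourhood of `k` is the same. `HypE`, and `Good D'`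
gives `Good D` (`J10` as in `K2`). -/
def StmtK4 : Prop := ∀ (V : Type) [Fintype V] [DecidableEq V] (D : Set (Finset V))
  (H : Finset V) (t k a b c : V), HypE V (vs D).card → Ext D H t k → a ∈ insert k H →
  b ∈ insert k H → c ∈ insert k H → adj D a b → adj D a c → adj D b c →
  ({a, b, c} : Finset V) ∉ D → ¬ Conn D (insert k H \ {a, b, c}) → Good D H t k

/-- **K5** (uses `J9`, `J10`, `K3`) An edge facet with a cone vertex `c`, first case. Proof. `Dk = ind D (k + H)`.
`a, b, c` are pairwise adjacent (`c` cones `{a}`, `{b}`), `{a,b,c} ∉ D`, and `c ~ k` (`c` cones `{k}`). If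
`nb k ⊆ {a,b,c}`: `K3`. `R = H - {a,b,c}` is nonempty (it meets `nb k`) and not connected. (1) Some component `B` of
`R` does not touch `k`: as in `K4`. (2) `k` touches all components of `R`; let `B1 ≠ B2` be two of them.
`CM [a, b, k + B1, B2]` (`J9`), `[a,b,k+B1]` and `[a,b,B2]` are unfilled (`ab` is a facet of `Dk`). `k4two`:
`[a,k+B1,B2]` and `[b,k+B1,B2]` are filled, and `B1` does not touch `B2`: so `a, b ~ k`. Hence `a, b, c ∈ nb k`. For
`i = 1, 2`: `Di = ind D (vs D - Bi)`, `Ext Di (H - Bi) t k` (`J9`; the neighbourhood of `k` contains `a, b, c`, so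
it is not a face and not a set of two elements), so `t` is a cone vertex of `Di`. So `{t,k,x} ∈ D` for all
`x ∈ nb k` (`B1`, `B2` are disjoint), `J10`. -/
def StmtK5 : Prop := ∀ (V : Type) [Fintype V] [DecidableEq V] (D : Set (Finset V))
  (H : Finset V) (t k a b c : V), HypE V (vs D).card → Ext D H t k → a ∈ H → b ∈ H → c ∈ H →
  EdgeFacet (ind D (insert k H)) a b → ApexD (ind D (insert k H)) a b c →
  ¬ Conn D (H \ {a, b, c}) → Good D H t k

/-- **K6** (uses `J1`, `J3`, `J10`) Second case. Proof. `c ∈ nb k`; `M = {a,b,c}` is a hollow triangle. (1) `H - c`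
is irreducible: a cone vertex `p` of `H - c`: `{p,a,b} ∉ D` if `p ≠ a, b`; for `p = a`: `H - M ≠ ∅` and
`H - {a,c}` is connected (`{a,c}` is a face), so `b` has a neighbour `y ∈ H - M`, and `{a,b,y} ∉ D`; `p = b` in
the same way. A face `F ⊆ H - c`, `F ≠ {a,b}`: `c + F ∈ D`, so `(H - c) - F = H - (c + F)` is connected; `F = {a,b}`:
`H - M` is connected. (2) `nb k - c ∉ D`: otherwise, if it is not `{a,b}`, `nb k = c + (nb k - c) ∈ D`; if it is
`{a,b}`, `nb k ⊆ M`. (3) `D' = ind D (vs D - c)`, `Ext D' (H - c) t k`, `HypE`. If the neighbourhood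
`nb k - c` of `k` in `H - c` is `{u,w}`, `u, w` nonadjacent: second alternative. Otherwise `t ~ k` and
`{t,k,x} ∈ D` for all `x ∈ nb k - c`. Suppose `{t,k,c} ∉ D`: `{t,k,c}` is a hollow triangle. For `x ∈ nb k - c`:
`{t,k,x} ∈ D`, `{t,x,c} ∈ D` (`{x,c} ∈ D`, `t` cones `H`), `{k,x,c} ∈ D` (`c` cones `{k,x}`). `J3` for `nb k - c`:
nonadjacent `y, y'`: `J1` for `Hol {t} {k} {c}`, `T = {y}`, `K = {y'}`: contradiction; a hollow triangle
`y1 y2 y3`: `k6` for `t, k, c, y1, y2, y3`: contradiction. So `{t,k,c} ∈ D`, and `J10`. -/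
def StmtK6 : Prop := ∀ (V : Type) [Fintype V] [DecidableEq V] (D : Set (Finset V))
  (H : Finset V) (t k a b c : V), HypE V (vs D).card → Ext D H t k → a ∈ H → b ∈ H → c ∈ H →
  EdgeFacet (ind D (insert k H)) a b → ApexD (ind D (insert k H)) a b c →
  Conn D (H \ {a, b, c}) → ¬ nb D {k} H ⊆ {a, b, c} →
  IrrS D (H \ {c}) ∧ (Apex D t ∨ ∃ u w, u ≠ w ∧ u ≠ c ∧ w ≠ c ∧ nb D {k} H = {u, w, c} ∧
    ¬ adj D u w)

/-- **K7** (uses `J6`, `J14`) Third case, part 1: `k` looks like a component. Proof. `H' = H - c`; the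
neighbourhood of `k` in `H'` is `{u,w}`, so `H' - {u,w}` is not connected (`J14`). There is a component `B` of
`H' - {u,w}` with `a, b ∉ B`: if `a ∉ {u,w}` take `B` with `a ∉ B` (`exists_comp_notMem`), then `b ∉ B` as `a ~ b`;
if `a ∈ {u,w}` then `b ∉ {u,w}`, take `B` with `b ∉ B`. `R = H' - {u,w} - B` contains `a` or `b`, so it is nonempty.
`U = k + (H - B)`. The neighbours of `B` in `H - B` and the neighbours of `k` in `H` are contained in
`{u,w,c}`; `k` is adjacent to `u, w, c`, and `c` is adjacent to all other vertices of `k + H`. IRREDUCIBLE. No cone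
vertex `p` of `U`: `p = k`: one of `a, b` is not in `{u,w}`, so it is not adjacent to `k`; `p = c`: the face `{a,b}`;
`p = u`: the face `{w}`; `p = w`: `{u}`; other `p`: the face `{k}`. Let `F ⊆ U` be a face, `U - F = S ∪ T` a
splitting without edges (`U - F ≠ ∅`). (1) `k ∉ F`, say `k ∈ S`: `T` contains none of `u, w, c`, so `T` does not
touch `B`, and `H - F = ((S - k) ∪ B) ∪ T` is a splitting without edges, but `H - F` is connected. (2) `k ∈ F`,
`F = k + G`, `G ⊆ {u,w,c}`, `U - F = (H - B) - G`. `H - G` is connected and `B` touches only elements of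
`{u,w,c} - G`; if `T` (or `S`) contains none of `u, w, c`, it does not touch the rest of `H - G`: contradiction.
So both `S` and `T` meet `{u,w,c}`. As `c ~ u, w`, `c ∈ G`, and `u ∈ S`, `w ∈ T` (or reversed), `G = {c}`. A component
`E` of `R` is a component of `H' - {u,w}` and touches `u` and `w` (`J6`), and `E ⊆ S ∪ T`: contradiction. -/
def StmtK7 : Prop := ∀ (V : Type) [Fintype V] [DecidableEq V] (D : Set (Finset V))
  (H : Finset V) (t k a b c u w : V), Ext D H t k → a ∈ H → b ∈ H → c ∈ H →
  EdgeFacet (ind D (insert k H)) a b → ApexD (ind D (insert k H)) a b c → IrrS D (H \ {c}) →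
  u ≠ w → u ≠ c → w ≠ c → nb D {k} H = {u, w, c} → ¬ adj D u w →
  ∃ B, B.Nonempty ∧ B ⊆ H \ {u, w, c} ∧ IrrS D (insert k (H \ B))

/-- **K8** (uses `J10`, `ThmS`) Third case, part 2. Proof. `U = k + (H - B)`, `D1 = ind D (t + U)`, fewer vertices
than `D`. If `t` is a cone vertex of `D1` then `t ~ k`, `{t,k,x} ∈ D` for `x ∈ nb k = {u,w,c} ⊆ U`, so `J10`. Suppose
not. `Irr D1`: no cone vertex (for `p ∈ U` by `IrrS.noApex`); `F ∈ D1`, `t ∈ F`: `U - F` is connected; `t ∉ F`: `U - F`
is connected and contains `u` or `w`, to which `t` is adjacent. `HypT`: `Two D1`. `c` is adjacent to all other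
vertices of `k + H`, `{k,u,c}, {k,w,c} ∈ D`. (1) An edge facet `xy` of `D1`. `x, y ∈ H - B`: `{t,x,y} ∈ D`.
`{k,h}`: `h ∈ {u,w,c}`: contained in `{k,u,c}` or `{k,w,c}`. `{t,h}`, `h ∈ H - B`: `h` has a neighbour `y'` in `H - B`
(`c`, or `u` if `h = c`), `{t,h,y'} ∈ D`. `{t,k}`: `ThmS` for `(D1, t, k)`: (C) a cone vertex `p` of `D1` minus `tk`,
`p ∈ H - B`, is a cone vertex of `U`: contradiction. (V), (X) a separator `S` with at most two elements,
`t ∈ X`, `k ∈ Y`: the elements of `(H - B) - S` are adjacent to `t`, so they are in `X`; one of `u, w, c` is not in `S`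
and is adjacent to `k`: contradiction (`Spl.no_edge`). (2) Nonadjacent `p, q` with `(t + U) - {p,q}` not
connected: `t ∈ {p,q}`: then `{p,q} = {t,k}` and `H - B = U - k` is connected (`{k}` is a face of `U`). `t ∉ {p,q}`: `t`
is adjacent to all elements of `(H - B) - {p,q}`, and if `k ∉ {p,q}` one of `u, w, c` is not in `{p,q}`, it is adjacent
to `t` and `k`: connected (`Conn.attach`). (3) A hollow triangle `{x,y,z}` with `(t + U) - {x,y,z}` not connected:
`t = x` (symmetric): `U - {y,z}` is connected; `t ∉ {x,y,z}`: as in (2), `{u,w,c}` is not contained in `{x,y,z}` because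
`u, w` are not adjacent. -/
def StmtK8 : Prop := ∀ (V : Type) [Fintype V] [DecidableEq V] (D : Set (Finset V))
  (H B : Finset V) (t k a b c u w : V), HypT V (vs D).card → Ext D H t k → a ∈ H → b ∈ H →
  c ∈ H → EdgeFacet (ind D (insert k H)) a b → ApexD (ind D (insert k H)) a b c →
  u ≠ w → u ≠ c → w ≠ c → nb D {k} H = {u, w, c} → ¬ adj D u w → B.Nonempty →
  B ⊆ H \ {u, w, c} → IrrS D (insert k (H \ B)) → Apex D t

/-- **K9** An edge facet with a cut vertex. Proof. `Dk = ind D (k + H)` has at least four vertices (`H` has at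
least three). So `X ≠ {a}` or `Y ≠ {b}`; say `X ≠ {a}` (symmetric). `p = z`, `q = a`: `(k + H) - {z,a}` is the union
of `X - a` and `Y`, both nonempty, without edges between (`Spl.no_edge`). If `z ~ a` then `{z,a} ∈ Dk` and
`Irr.conn` gives a contradiction. -/
def StmtK9 : Prop := ∀ (V : Type) [Fintype V] [DecidableEq V] (D : Set (Finset V))
  (H X Y : Finset V) (t k a b z : V), Ext D H t k → Irr (ind D (insert k H)) →
  EdgeFacet (ind D (insert k H)) a b → Spl (ind D (insert k H)) a b {z} X Y →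
  ∃ p ∈ insert k H, ∃ q ∈ insert k H, p ≠ q ∧ ¬ adj D p q ∧ ¬ Conn D (insert k H \ {p, q})

/-- **K10** (uses `J1`, `J2`, `J10`) Crossed cones, `k` in `X`, first case: the other cone vertex does not touch
`X - k`. Proof. `Dk = ind D (k + H)`. `s ~ a`, `s' ~ b`, `s ~ s'`, `s ~ k`. `{s,a}` is a face, `H - {s,a}` is connected;
`X - {a,k}` has no edges to `Y ∪ {s'}`: so `X = {a,k}`. `nb k ⊆ {a,s,s'}` (`k ∈ X`, `k ≠ a`). `{a,s}` and `{s,s'}` are
faces and `nb k` is not, so `nb k = {a,s,s'}`. `Hol {a} {s} (s' + Y)`: `s'` cones `Y`; `a ~ s`, `s ~ s'`,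
`a ~ b ∈ Y`; a face containing `a, s` and `y ∈ s' + Y`: `y ∈ Y` is impossible (a face meeting `X` and `Y` is
`{a,b}`), `y = s'` is impossible as `a, s'` are not adjacent. `t` fills all pairs, `k` touches all sets: `J1`,
`J2`: `t ~ k`, `{t,k,a}, {t,k,s} ∈ D` and `[t,k,s'+Y]` is filled, `k` does not touch `Y`: `{t,k,s'} ∈ D`. `J10`. -/
def StmtK10 : Prop := ∀ (V : Type) [Fintype V] [DecidableEq V] (D : Set (Finset V))
  (H X Y : Finset V) (t k a b s s' : V), Ext D H t k → EdgeFacet (ind D (insert k H)) a b →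
  s ≠ s' → MS (ind D (insert k H)) a b {s, s'} X Y →
  (∀ F ∈ ind D (insert k H), F ⊆ X ∪ {s, s'} → insert s F ∈ D) →
  (∀ F ∈ ind D (insert k H), F ⊆ Y ∪ {s, s'} → insert s' F ∈ D) → ¬ adj D a s' → k ∈ X → k ≠ a →
  ¬ touch D {s'} (X \ {k}) → Apex D t

/-- **K11** (uses `J10`) Crossed cones, `k` in `X`, second case. Proof. `D' = con D Y b`, `H' = (X - k) + s + s' + b`,
`vs D' = t + k + H'`, smaller than `D` as `Y ≠ {b}`. Faces `F ⊆ H'` of `D'`: `F ∈ D` or `F ⊆ {b,s,s'}` (the image of
a face meeting `Y` other than `{a,b}` is contained in `{b,s,s'}`), and `{b,s,s'}` is a face: `s` touches `Y` in `y`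
(`MS.tY`), `{y,s} + s' ∈ D`. IRREDUCIBLE: cone vertices: `p ≠ a, b`: the face `{a,b}`; `p = a`: `{b,s'}`; `p = b`:
`{a,s}`. Let `F ⊆ H'` be a face of `D'`. `b ∉ F`: `F ∈ D`, `H - F` is connected and `H' - F` is its image
(`conn_con`). `b ∈ F`: `F = {a,b}` or `F ⊆ {b,s,s'}`. If `s ∉ F`: all vertices of `(X - k) + s'` are adjacent to `s`,
`Conn.attach`. If `s ∈ F`: `X - k` is connected: `{s,s'}` is a face, `H - {s,s'} = (X - k) ∪ Y` is connected, its
only edge between `X - k` and `Y` is `ab`; a part of a splitting of `X - k` not containing `a` would have no edges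
to the rest. If `s' ∉ F`, `s'` touches `X - k`. `Ext D' H' t k`: `t` cones `H'` in `D'` (`{t,y,s,s'} ∈ D`); `k` does not
touch `Y`, so the neighbourhood of `k` is the same set, it does not contain `b`, so it is not a face of `D'`.
`HypE`: `Good D' H' t k`. `t` a cone vertex of `D'`: `{t,k,x} ∈ D'`, `x ∈ nb k`, `x ≠ b`, lifts to `{t,k,x} ∈ D`; `J10`.
`nb k = {u,w}` nonadjacent in `D'`: nonadjacent in `D`. -/
def StmtK11 : Prop := ∀ (V : Type) [Fintype V] [DecidableEq V] (D : Set (Finset V))
  (H X Y : Finset V) (t k a b s s' : V), HypE V (vs D).card → Ext D H t k →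
  EdgeFacet (ind D (insert k H)) a b → s ≠ s' → MS (ind D (insert k H)) a b {s, s'} X Y →
  (∀ F ∈ ind D (insert k H), F ⊆ X ∪ {s, s'} → insert s F ∈ D) →
  (∀ F ∈ ind D (insert k H), F ⊆ Y ∪ {s, s'} → insert s' F ∈ D) → ¬ adj D a s' → ¬ adj D b s →
  k ∈ X → k ≠ a → Y ≠ {b} → touch D {s'} (X \ {k}) → Good D H t k

/-- **K12** (uses `A6`, `ThmA`, `K10`, `K11`) Crossed cones. Proof. `Dk = ind D (k + H)`. By `A6` the separator
`{s,s'}` is an `MS` with the sides `X, Y`. By `ThmA` (`HypA`) and the hypothesis `a, b` have no common neighbour in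
`Dk`. `s ~ a` (`s` cones `{a}`), `s' ~ b`, so `b, s` and `a, s'` are not adjacent. `s'` touches `X`, so `X ≠ {a}`;
`Y ≠ {b}`. `k ≠ s`: otherwise `{s',b}` is a face contained in `H`, but `H - {s',b}` is the union of `X` and `Y - b`
without edges. `k ≠ s'` in the same way (`{s,a}`). So `k ∈ X` or `k ∈ Y`, `k ≠ a, b`; by symmetry (exchange
`a, b`, `X, Y`, `s, s'`; `MS.symm`, `EdgeFacet.symm`) let `k ∈ X`: `K10` or `K11`. -/
def StmtK12 : Prop := ∀ (V : Type) [Fintype V] [DecidableEq V] (D : Set (Finset V))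
  (H : Finset V) (t k a b : V), HypE V (vs D).card → Ext D H t k →
  Irr (ind D (insert k H)) → a ∈ H → b ∈ H → EdgeFacet (ind D (insert k H)) a b →
  (∀ c, ¬ ApexD (ind D (insert k H)) a b c) →
  (∀ z X Y, ¬ Spl (ind D (insert k H)) a b {z} X Y) → Crossed (ind D (insert k H)) a b →
  Good D H t k

/-- **K13** (uses `J10`, `J12`, `ThmS`, `K0`, ..., `K9`, `K12`) The extension lemma. Proof. Strong induction on the
number of vertices of `D` (at most `n`). Let `Dk = ind D (k + H)`. `K0`: `Irr Dk` (otherwise done). `vs Dk = k + H` has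
less than `n` elements, so `Two Dk` (`HypT`). An edge facet containing `k`: `K1`. An edge facet `ab` with
`a, b ∈ H`: `ThmS` for `(Dk, a, b)`: (C) a cone vertex `c`. `c = k`: `k` is adjacent to all elements of `H`: `J12`,
`J10`. `c ∈ H`: if `nb k ⊆ {a,b,c}`: `K3`; if `H - {a,b,c}` is not connected: `K5`; otherwise `K6`, and `K7`, `K8` in the
second alternative. (V): `K9` and `K2`. (X), not (C), not (V): `K12`. `¬ NoPair Dk`: `K2`. A separating hollow
triangle: `K4`. -/
def StmtK13 : Prop := ∀ (V : Type) [Fintype V] [DecidableEq V] (n : ℕ), HypT V n → HypE V (n + 1)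

/-! ## L. Connected graphs -/

/-- **L1** Two vertices which are not cut vertices. Proof. Take `v ∈ A` such that a component `C` of `A - v` has
the maximal number of elements (over all `v` and `C`). If `C ≠ A - v`, take `v' ∈ A - v - C`; `C + v` is connected
(`Conn.comp_touch`) and contained in `A - v'`, so a component of `A - v'` is larger: contradiction. So `A - v` is
connected. For the second vertex: among the vertices `v' ≠ v` take one such that the component `C` of
`A - v'` containing `v` is maximal; if `C ≠ A - v'`, take `v'' ∈ A - v' - C`, `v'' ≠ v`; `C + v'` is connected,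
contains `v` and is contained in `A - v''`: contradiction. (The second argument also gives the first vertex.) -/
def StmtL1 : Prop := ∀ (V : Type) [Fintype V] [DecidableEq V] (Δ : Set (Finset V))
  (A : Finset V), Conn Δ A → 2 ≤ A.card →
  ∃ v ∈ A, ∃ v' ∈ A, v ≠ v' ∧ Conn Δ (A \ {v}) ∧ Conn Δ (A \ {v'})

/-- **L2** (uses `L1`) Minimal connectors. Proof. If `A` has one element, clear. Let `v ≠ v'` be as in `L1`. By
minimality `A - v` does not touch `S` or does not touch `T`, the same for `v'`. If `A - v` does not touch `T` then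
`v` is the only vertex of `A` touching `T`; the same for `v'`. Otherwise `A - v` and `A - v'` do not touch `S`: so a
vertex of `A` touching `S` is equal to `v` and to `v'`: contradiction. -/
def StmtL2 : Prop := ∀ (V : Type) [Fintype V] [DecidableEq V] (Δ : Set (Finset V))
  (S T A : Finset V), MinT Δ S T A → ∀ x ∈ A, ∀ y ∈ A, touch Δ {x} T → touch Δ {y} T → x = y

/-- **L3** (uses `L1`) The end of a minimal connector. Proof. `L1`: `v ≠ v'`. As in `L2`: one of `A - v`, `A - v'`
does not touch `T`, the other one does not touch `S` (they cannot both not touch `T`: then the vertices touching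
`T` would be equal to both `v` and `v'`). Say `A - v` does not touch `T`, and `A - v'` does not touch `S`. Then `v`
touches `T`, the vertices touching `S` are equal to `v' ∈ A - v`, so `A - v` touches `S` and `v` does not. -/
def StmtL3 : Prop := ∀ (V : Type) [Fintype V] [DecidableEq V] (Δ : Set (Finset V))
  (S T A : Finset V), MinT Δ S T A → 2 ≤ A.card → ∃ v ∈ A, Conn Δ (A \ {v}) ∧
    touch Δ (A \ {v}) S ∧ ¬ touch Δ (A \ {v}) T ∧ touch Δ {v} T ∧ ¬ touch Δ {v} S

/-- **L4** (uses `L1`) Two vertices which can be removed together. Proof. `L1`: `A - v` is connected. `L1` for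
`A - v`: `x ≠ y` in `A - v` with `A - v - x`, `A - v - y` connected. If `v` has a neighbour in `A - v` different from
`x` let `v' = x`; otherwise `v ~ x` (`A` is connected) and let `v' = y`. In both cases `v` touches `A - {v,v'}`, so
`A - v' = (A - {v,v'}) + v` is connected. -/
def StmtL4 : Prop := ∀ (V : Type) [Fintype V] [DecidableEq V] (Δ : Set (Finset V))
  (A : Finset V), Conn Δ A → 3 ≤ A.card → ∃ v ∈ A, ∃ v' ∈ A, v ≠ v' ∧ Conn Δ (A \ {v}) ∧
    Conn Δ (A \ {v'}) ∧ Conn Δ (A \ {v, v'})

/-- **L5** (uses `L2`) The only edge. `K` is a minimal connector of `S` and `T`, `K = KL ∪ KR`. Proof. `KL` is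
a minimal connector of `S` and `KR`: if `A' ⊂ KL` is connected and touches `S` and `KR`, then `A' ∪ KR` is
connected, touches `S` and `T` (`KR` touches `T`, as `KL` does not), and is properly contained in `K`:
contradiction. `L2`: only one vertex of `KL` touches `KR`. In the same way only one vertex of `KR` touches
`KL`. -/
def StmtL5 : Prop := ∀ (V : Type) [Fintype V] [DecidableEq V] (Δ : Set (Finset V))
  (S T KL KR : Finset V) (k k' x y : V), MinT Δ S T (KL ∪ KR) → Disjoint KL KR → Conn Δ KL →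
  Conn Δ KR → ¬ touch Δ KL T → ¬ touch Δ KR S → k ∈ KL → k' ∈ KR → adj Δ k k' → x ∈ KL →
  y ∈ KR → adj Δ x y → x = k ∧ y = k'

/-- **L6** Existence. Proof. Take `A ⊆ U` connected, touching `S` and `T`, with a minimal number of elements. -/
def StmtL6 : Prop := ∀ (V : Type) [Fintype V] [DecidableEq V] (Δ : Set (Finset V))
  (S T U : Finset V), Conn Δ U → touch Δ U S → touch Δ U T → ∃ A, A ⊆ U ∧ MinT Δ S T A

end Pool.Agent.Lib.MP_73b196_co.Tw
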