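import Pool.Agent.Lib.MP_73b196_co.Tw.Spec

/-!
# S2, part 2: statements with complete proofs in the docstrings

Conventions as in `Tw/Spec.lean`. New notions:
* `Mx Δ t H` : `H` is irreducible, `t` cones `H`, and `H` has the maximal number of elements for such pairs,
* `cv Δ H` : the set of all vertices which cone `H`,
* `gad Δ U T u w h` : the gadget: the faces of `Δ` in `U` and all subsets of `h + u + T` and of `h + w + T`,
* `Ful Δ D A B C` : `D` fills all pairs of the three sets,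
* `MinF` : minimal connected set with `Ful`.
-/

set_option autoImplicit false

namespace Pool.Agent.Lib.MP_73b196_co.Tw

open Pool.Agent.Lib.MP_73b196_co.St

variable {V : Type} [Fintype V] [DecidableEq V]

/-- `H` is a largest irreducible set with a cone vertex outside. -/
structure Mx (Δ : Set (Finset V)) (t : V) (H : Finset V) : Prop where
  irr : IrrS Δ H
  cov : Cov Δ t H
  max : ∀ (t' : V) (H' : Finset V), IrrS Δ H' → Cov Δ t' H' → H'.card ≤ H.card

open Classical in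
/-- The vertices which cone `H`. -/
noncomputable def cv (Δ : Set (Finset V)) (H : Finset V) : Finset V :=
  Finset.univ.filter fun v => Cov Δ v H

/-- The gadget. -/
def gad (Δ : Set (Finset V)) (U T : Finset V) (u w h : V) : Set (Finset V) :=
  {F | (F ∈ Δ ∧ F ⊆ U) ∨ F ⊆ insert h (insert u T) ∨ F ⊆ insert h (insert w T)}

/-- The situation of the gadget. -/
structure Gad (Δ : Set (Finset V)) (C T : Finset V) (u w h : V) : Prop where
  cC : Conn Δ C
  dis : Disjoint C T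
  uC : u ∉ C
  wC : w ∉ C
  uT : u ∉ T
  wT : w ∉ T
  uw : u ≠ w
  nuw : ¬ adj Δ u w
  fu : insert u T ∈ Δ
  fw : insert w T ∈ Δ
  tch : ∀ x ∈ T ∪ {u, w}, touch Δ {x} C
  cl : ∀ c ∈ C, ∀ v, adj Δ c v → v ∈ C ∪ T ∪ {u, w}
  rest : h ∈ vs Δ ∧ h ∉ C ∪ T ∪ {u, w}

/-- `D` fills the three pairs. -/
def Ful (Δ : Set (Finset V)) (D A B C : Finset V) : Prop :=
  fill Δ [D, A, B] ∧ fill Δ [D, A, C] ∧ fill Δ [D, B, C]

/-- A minimal connected set which fills the three pairs. -/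
structure MinF (Δ : Set (Finset V)) (A B C D : Finset V) : Prop where
  conn : Conn Δ D
  dA : Disjoint D A
  dB : Disjoint D B
  dC : Disjoint D C
  ful : Ful Δ D A B C
  min : ∀ D', D' ⊂ D → Conn Δ D' → ¬ Ful Δ D' A B C

/-! ## W. Extension by connected sets -/

/-- **W1** Contraction outside `H`. Proof. If the image `F ⊆ H` of `F0` then `F0` does not meet `A` (elements of
`A` are mapped to `a ∉ H`), so `F0 = F`. Irreducibility of `H` only depends on the faces contained in `H`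
(`irrS_congr` in `Tw/Base.lean`). -/
def StmtW1 : Prop := ∀ (V : Type) [Fintype V] [DecidableEq V] (Δ : Set (Finset V))
  (A H : Finset V) (a : V), a ∈ A → Disjoint A H → IrrS Δ H →
  (∀ F, F ⊆ H → (F ∈ con Δ A a ↔ F ∈ Δ)) ∧ IrrS (con Δ A a) H

/-- **W2** Contraction into `H`. Proof. Let `F ⊆ H`. If `F ∈ Δ`, its image is `F`. Let `F` be the image of `F0`. If
`F0` does not meet `K` then `F0 = F`. Otherwise `x ∈ F`, `F - x ⊆ F0`, and the elements of `F - x` are adjacent to an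
element of `F0 ∩ K`, so `F ⊆ nb K`, a face. `irrS_congr`. -/
def StmtW2 : Prop := ∀ (V : Type) [Fintype V] [DecidableEq V] (Δ : Set (Finset V))
  (K H : Finset V) (x : V), IsCx Δ → Disjoint K H → x ∈ nb Δ K H → nb Δ K H ∈ Δ → IrrS Δ H →
  (∀ F, F ⊆ H → (F ∈ con Δ (insert x K) x ↔ F ∈ Δ)) ∧ IrrS (con Δ (insert x K) x) H

/-- **W3** (uses `J3`, `W1`, `W2`) Two vertices. Proof. `N1`, `N2` the neighbourhoods of `k1`, `k2` in `H` (faces),
`N = N1 ∪ N2` is not a face and has at least three elements. (0) `D0 = con D {k1,k2} k1`: `Ext D0 H t k1` (`W1`), the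
neighbourhood of `k1` is `N`, so `HypE` gives that `t` is a cone vertex of `D0`: for `z ∈ N` the triple
`[t,z,{k1,k2}]` is filled. So `{t,k1,z} ∈ D` for `z ∈ N1 - N2` and `{t,k2,z} ∈ D` for `z ∈ N2 - N1`. As `N1, N2` are
faces and `N` is not, there are `x0 ∈ N1 - N2` and `y0 ∈ N2 - N1`; so `t ~ k1, k2`. (1) `z ∈ N1 ∩ N2`. `H - N1` is
connected and contains `y0`; `B = k2 + (H - N1)` is connected. `x0` touches `H - N1`, because `H - (N1 - x0)` is
connected. `k5` for `k1; t, z; B, x0`: `[k1,B,x0]` is unfilled (`k1` is not adjacent to `H - N1`, `k2` not to `x0`);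
`z ~ x0` as `N1` is a face; `z ~ k2`. So `{t,k1,z} ∈ D`, and `{t,k2,z} ∈ D` by symmetry. (2) `{t,k1,k2}`. Claim: there
is `x ∈ N1 - N2` with `x + N2 ∉ D` and `|N2| ≥ 2`, or `y ∈ N2 - N1` with `y + N1 ∉ D` and `|N1| ≥ 2`. `J3` for `N`:
nonadjacent `x, y` in `N`: one is in `N1 - N2`, the other in `N2 - N1` (both are faces), say `x ∈ N1 - N2`; both
`x + N2` and `y + N1` are not faces, and `|N1| ≥ 2` or `|N2| ≥ 2`. A hollow triangle in `N`: it has an element
`x ∈ N1 - N2` and an element `y ∈ N2 - N1`, the third element is in `N2` (then `x + N2 ∉ D`, `|N2| ≥ 2`) or in `N1`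
(then `y + N1 ∉ D`, `|N1| ≥ 2`). Let (symmetric) `x ∈ N1 - N2`, `x + N2 ∉ D`, `|N2| ≥ 2`. `D1 = con D {x,k1} x`:
`Ext D1 H t k2` (`W2`), the neighbourhood of `k2` is `x + N2`, at least three elements: `t` is a cone vertex of
`D1`, `{t,k2,x} ∈ D1` lifts to `{t,k2,x}` or `{t,k2,k1}`, and `k2` is not adjacent to `x`. -/
def StmtW3 : Prop := ∀ (V : Type) [Fintype V] [DecidableEq V] (D : Set (Finset V))
  (H : Finset V) (t k1 k2 : V), HypE V (vs D).card → InP D →
  vs D = insert t (insert k1 (insert k2 H)) → t ∉ H → k1 ∉ H → k2 ∉ H → t ≠ k1 → t ≠ k2 →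
  IrrS D H → (∀ F ∈ D, F ⊆ H → insert t F ∈ D) → adj D k1 k2 → nb D {k1} H ∈ D →
  nb D {k2} H ∈ D → nb D {k1, k2} H ∉ D → 3 ≤ (nb D {k1, k2} H).card →
  ({t, k1, k2} : Finset V) ∈ D ∧ (∀ z ∈ nb D {k1} H, ({t, k1, z} : Finset V) ∈ D) ∧
    ∀ z ∈ nb D {k2} H, ({t, k2, z} : Finset V) ∈ D

/-- **W4** A triangle in `K`. Proof. `nb (K - k)` is a face (`K - k` is connected) and `nb K` is not, so there is
`y ∈ H` adjacent to `k`, not touching `K - k`; in the same way `y'` for `k'` and `y''` for `m`. `{k,k'}` is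
connected and properly contained in `K`, so `y, y' ∈ nb {k,k'}` are adjacent; the same for the other pairs. Let
`X = {y,y',y''}`. Suppose `{t,k,k'} ∉ Δ`. `k5` for `k; t, k'; m, X`: `[k,m,X]` is unfilled, because no element of `X`
is adjacent to both `k` and `m`. Contradiction. -/
def StmtW4 : Prop := ∀ (V : Type) [Fintype V] [DecidableEq V] (Δ : Set (Finset V))
  (H K : Finset V) (t k k' m : V), InP Δ → MinK Δ H K → t ∉ H → t ∉ K →
  (∀ x ∈ H, adj Δ t x) → k ∈ K → k' ∈ K → m ∈ K → adj Δ k k' → adj Δ k m → adj Δ k' m →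
  Conn Δ (K \ {k}) → Conn Δ (K \ {k'}) → Conn Δ (K \ {m}) → adj Δ t k → adj Δ t k' →
  adj Δ t m → ({t, k, k'} : Finset V) ∈ Δ

/-- **W5** The centre of a star. Proof. As in `W4` there is `y1 ∈ H` adjacent to `l1`, not touching `K - l1`, and
`y2 ∈ H` adjacent to `l2`, not touching `K - l2`. `F = nb {k}` is a face (`{k}` is a proper connected subset of `K`),
`H - F` is connected and contains `y1, y2`. `grow`: `H - F = B' ∪ C'`, connected, touching, `y1 ∈ B'`, `y2 ∈ C'`.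
`B = l1 + B'`, `C = l2 + C'`. `k5` for `k; t, x; B, C`: `[k,B,C]` is unfilled: `k` is not adjacent to elements of
`H - F`, and `l1, l2` are not adjacent. `x ~ y1`: both are in `nb (K - l2)`, a face; `x ~ y2` in the same way. `t`
touches everything. So `{t,k,x} ∈ Δ`. -/
def StmtW5 : Prop := ∀ (V : Type) [Fintype V] [DecidableEq V] (Δ : Set (Finset V))
  (H K : Finset V) (t k l1 l2 x : V), InP Δ → IrrS Δ H → MinK Δ H K → t ∉ H → t ∉ K →
  (∀ y ∈ H, adj Δ t y) → k ∈ K → l1 ∈ K → l2 ∈ K → l1 ≠ l2 → adj Δ k l1 → adj Δ k l2 →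
  ¬ adj Δ l1 l2 → Conn Δ (K \ {l1}) → Conn Δ (K \ {l2}) → adj Δ t k → adj Δ t l1 →
  adj Δ t l2 → x ∈ nb Δ {k} H → ({t, k, x} : Finset V) ∈ Δ

/-- **W6** (uses `J10`, `W1`, `W3`, `W4`, `W5`) Proof. Induction on `|K|`. `|K| = 1`: `Ext D H t k`, `HypE`, the
neighbourhood has three elements. `|K| = 2`: `W3`, `J10`. Let `|K| ≥ 3`. For an edge `xy` in `K` the induction
hypothesis for `con D {x,y} x` (`W1`; `K' = K - y`; a connected proper subset of `K'` lifts to a connected proper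
subset of `K`) gives that `t` is a cone vertex of it. So (*): `t ~ z` for `z ≠ x, y`; `{t,z,z'} ∈ D` if
`z ~ z'`, `z, z' ∉ {x,y}`; `[t,z,{x,y}]` is filled if `z ∉ {x,y}` touches `{x,y}`. (1) `{t,k,k'} ∈ D` for all edges
`kk'` of `K`. If there is an edge of `K` disjoint from `{k,k'}`: (*). If some `k'' ∈ K`, `k'' ≠ k'`, is adjacent to
`k`, not to `k'`: (*) for `{k,k''}` and `z = k'`; the same with `k, k'` exchanged. Otherwise: every
`m ∈ K - {k,k'}` has a neighbour in `K` (connected), it is `k` or `k'`, and then it is adjacent to both. There is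
such an `m`, and `K - k`, `K - k'`, `K - m` are connected (all other elements are adjacent to `k'`, `k`, `k`).
`t ~ k, k', m` by (*) for the edges `k'm`, `km`, `kk'`. `W4`. (2) `t ~ k` for all `k ∈ K` (by (1)). (3)
`{t,k,x} ∈ D` for `x ∈ nb {k}`. If there is an edge of `K` not containing `k`: (*). Otherwise all elements of
`K - k` are adjacent to `k` and pairwise nonadjacent, there are at least two, `l1, l2`; `K - l1`, `K - l2` are
connected: `W5`. (4) `J10` for `U = H ∪ K`. -/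
def StmtW6 : Prop := ∀ (V : Type) [Fintype V] [DecidableEq V] (D : Set (Finset V))
  (H K : Finset V) (t : V), HypE V ((vs D).card + 1) → InP D → vs D = insert t (H ∪ K) →
  t ∉ H ∪ K → MinK D H K → IrrS D H → (∀ F ∈ D, F ⊆ H → insert t F ∈ D) →
  3 ≤ (nb D K H).card → Apex D t

/-! ## M. The main argument -/

/-- **M1** (uses `J1`, `J2`) Proof. `X1 = {u}`, `X2 = w + H2`, `X3 = P ∪ H1`: `Hol X1 X2 X3`: `u ~ H2`, `u ~ H1`,
`w ~ H1`; a face `{u,x2,x3}`: `x2 = w` is impossible, `x2 ∈ H2`: `x3 ∈ H1` is impossible (`H1` does not touch `H2`),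
`x3 ∈ P` is impossible (`[u,H2,P]` is unfilled). `t` fills `[X1,X2]`, `[X1,X3]`, `[X2,X3]`; `K` touches `X1`, `X2`
(by `w`), `X3` (by `P`). `J1`, `J2`: `t` touches `K`, `[t,K,u]` and `[t,K,w+H2]` are filled, `K` does not touch
`H2`. -/
def StmtM1 : Prop := ∀ (V : Type) [Fintype V] [DecidableEq V] (Δ : Set (Finset V))
  (H1 H2 K P : Finset V) (t u w : V), InP Δ → Conn Δ H1 → Conn Δ H2 → Conn Δ K → Conn Δ P →
  [{t}, {u}, {w}, H1, H2, K, P].Pairwise (fun A B => Disjoint A B) → ¬ adj Δ u w →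
  ¬ touch Δ H1 H2 → fill Δ [{t}, {u}, H1] → fill Δ [{t}, {u}, H2] → fill Δ [{t}, {w}, H1] →
  fill Δ [{t}, {w}, H2] → touch Δ {u} K → touch Δ {w} K → ¬ touch Δ K H2 → touch Δ P H1 →
  touch Δ P K → ¬ fill Δ [{u}, H2, P] →
  touch Δ {t} K ∧ fill Δ [{t}, K, {u}] ∧ fill Δ [{t}, K, {w}]

/-- **M2** (uses `J1`, `J2`) Proof. (1) `P` touches `KR`: `X1 = u + KL`, `X2 = w + H2`, `X3 = P ∪ H1`: `Hol`: in a face
`{x1,x2,x3}` `x1 ∈ KL` is impossible (`KL` touches neither `w` nor `H2`), then as in `M1`. `t` fills the pairs, `KR`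
touches `X1` (by `KL`), `X2` (`w`), `X3` (`P`). `J1`, `J2`: `[t,KR,u+KL]` is filled, and `KR` does not touch `u`. (2)
`P` touches `KL`: `X1 = {u}`, `X2 = w + H2 + KR`, `X3 = P ∪ H1`: `u` touches neither `w` nor `KR`, then as before.
`KL` touches `u`, `KR`, `P`: `[t,KL,X2]` is filled, `KL` touches neither `w` nor `H2`. -/
def StmtM2 : Prop := ∀ (V : Type) [Fintype V] [DecidableEq V] (Δ : Set (Finset V))
  (H1 H2 KL KR P : Finset V) (t u w : V), InP Δ → Conn Δ H1 → Conn Δ H2 → Conn Δ KL →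
  Conn Δ KR → Conn Δ P →
  [{t}, {u}, {w}, H1, H2, KL, KR, P].Pairwise (fun A B => Disjoint A B) → ¬ adj Δ u w →
  ¬ touch Δ H1 H2 → fill Δ [{t}, {u}, H1] → fill Δ [{t}, {u}, H2] → fill Δ [{t}, {w}, H1] →
  fill Δ [{t}, {w}, H2] → touch Δ KL KR → touch Δ {u} KL → ¬ touch Δ {w} KL →
  touch Δ {w} KR → ¬ touch Δ {u} KR → ¬ touch Δ KL H2 → ¬ touch Δ KR H2 → touch Δ P H1 →
  (touch Δ P KL ∨ touch Δ P KR) → ¬ fill Δ [{u}, H2, P] → fill Δ [{t}, KL, KR]

/-- **M3** (uses `L2`, `L5`, `M1`, `M2`) Proof. Let `k ~ k'` in `K`. `grow`: `K = KL ∪ KR`, connected, touching,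
`k ∈ KL`, `k' ∈ KR`. By minimality neither `KL` nor `KR` touches both `u` and `w`, but `K` does; so `KL` touches `u`,
not `w`, and `KR` touches `w`, not `u` (or conversely, then exchange `k, k'`). `M2`: a face `{t,x,y}`, `x ∈ KL`,
`y ∈ KR`, and `L5`: `x = k`, `y = k'`. Let `k ∈ K` be adjacent to `u`: `M1`: a face `{t,k0,u}`, `k0 ∈ K`, and `k0 = k`
by `L2` (for `MinT Δ {w} {u} K`). The same for `w`. `t ~ k` for all `k ∈ K`: if `K = {k}` by `M1`, otherwise `k` has a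
neighbour in `K`. -/
def StmtM3 : Prop := ∀ (V : Type) [Fintype V] [DecidableEq V] (Δ : Set (Finset V))
  (H1 H2 K P : Finset V) (t u w : V), InP Δ → Conn Δ H1 → Conn Δ H2 → MinT Δ {u} {w} K →
  Conn Δ P → [{t}, {u}, {w}, H1, H2, K, P].Pairwise (fun A B => Disjoint A B) → ¬ adj Δ u w →
  ¬ touch Δ H1 H2 → fill Δ [{t}, {u}, H1] → fill Δ [{t}, {u}, H2] → fill Δ [{t}, {w}, H1] →
  fill Δ [{t}, {w}, H2] → ¬ touch Δ K H2 → touch Δ P H1 → touch Δ P K →
  ¬ fill Δ [{u}, H2, P] →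
  (∀ k ∈ K, adj Δ t k) ∧ (∀ k ∈ K, ∀ k' ∈ K, adj Δ k k' → ({t, k, k'} : Finset V) ∈ Δ) ∧
    (∀ k ∈ K, adj Δ k u → ({t, k, u} : Finset V) ∈ Δ) ∧
    ∀ k ∈ K, adj Δ k w → ({t, k, w} : Finset V) ∈ Δ

/-- **M4** (uses `J4`, `J12`) Proof. Let `v ≠ v'` in `A = cv Δ H`: `J12`: `v ~ v'` and `{v,v',x} ∈ Δ` for `x ∈ H`.
Let `v, v', v''` be different: `Hol {x} B C` in `H` (`J4`), `k6` for `v, v', v'', x, B, C` (pairwise touching):
`{v,v',v''} ∈ Δ`. So all triples of `A ∪ F` are faces: `clq_mem`. -/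
def StmtM4 : Prop := ∀ (V : Type) [Fintype V] [DecidableEq V] (Δ : Set (Finset V))
  (H : Finset V), InP Δ → IrrS Δ H → ∀ F ∈ Δ, F ⊆ H → cv Δ H ∪ F ∈ Δ

/-- **M5** (uses `W6`) Proof. `W6` for `D = ind Δ (t + (H ∪ K))`. -/
def StmtM5 : Prop := ∀ (V : Type) [Fintype V] [DecidableEq V] (Δ : Set (Finset V))
  (H K : Finset V) (t : V), InP Δ → HypE V ((vs Δ).card + 1) → IrrS Δ H → Cov Δ t H →
  MinK Δ H K → t ∉ K → 3 ≤ (nb Δ K H).card → Cov Δ t (H ∪ K)

/-- **M6** (uses `J10`, `J13`, `J14`, `L2`, `L6`, `M3`, `M5`) The free pair. Proof. `K` touches only `u, w` in `H`;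
`{u}` and `{w}` are faces, and a connected proper subset of `K` has a face as neighbourhood in `H`, so it does not
touch both: `MinT Δ {u} {w} K`. `J14`: `H - {u,w}` is not connected. There is `h0 ∈ H - {u,w}` touching `C` in `c0`,
`c0 ∉ K`. The component `E` of `C - K` containing `c0` touches `K` (`Conn.comp_touch`) and `H - {u,w}`. `L6`:
`P ⊆ E` with `MinT Δ K (H - {u,w}) P`. Let `p ∈ P` be adjacent to `h1 ∈ H - {u,w}`, `H1` the component of `H - {u,w}`
containing `h1`, `H2` another component; `u, w` touch `H1` and `H2` (`J6`; irreducible). `[u,H2,P]` is unfilled: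
suppose `{u,h2,p'} ∈ Δ`; `p' = p` by `L2`; so `u, h1, h2 ∈ nb {p}`, `h1, h2` are not adjacent, so `nb {p}` is not a
face and has at least three elements; `MinK Δ H {p}`, `M5`: `t` cones `H + p`, and `H + p` is irreducible by `J13`
(`p` does not cone `H`): contradiction to `Mx.max`. `M3` (`t` cones `H`, so the four triples are filled), `J10` with
`U = H ∪ K`: `t` cones `H ∪ K` (an edge between `K` and `H` ends in `u` or `w`). `J13`: `H ∪ K` is irreducible:
contradiction to `Mx.max`. (`t ∉ C` as `t` cones `H`.) -/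
def StmtM6 : Prop := ∀ (V : Type) [Fintype V] [DecidableEq V] (Δ : Set (Finset V))
  (H C K : Finset V) (t u w : V), InP Δ → HypE V ((vs Δ).card + 1) → Mx Δ t H → Conn Δ C →
  Disjoint C H → (∀ c ∈ C, ¬ Cov Δ c H) → K ⊆ C → MinK Δ H K → u ≠ w → ¬ adj Δ u w →
  nb Δ K H = {u, w} → nb Δ C H ≠ {u, w} → False

/-- **M7** The gadget is in the class. Proof. `U = C ∪ T ∪ {u,w}`. `gad Δ U T u w h = ind (con Δ B h) (h + U)`
(`InP.con`, `InP.ind`): let `F ⊆ h + U` be the image of `F0 ∈ Δ`. `h ∉ F`: `F0` does not meet `B`, `F0 = F`.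
`h ∈ F`: `F0` meets `B`, `F0 - B = F - h ⊆ U`, `F0` does not meet `C` (`B` does not touch `C`), so `F - h ⊆ T ∪ {u,w}`
and it does not contain both `u` and `w`. Conversely `h + u + T` is the image of `T ∪ {u,b}`, where `b ∈ B` is
adjacent to `u`, a face by the hypothesis on `T`; the same for `w`. -/
def StmtM7 : Prop := ∀ (V : Type) [Fintype V] [DecidableEq V] (Δ : Set (Finset V))
  (H B C T : Finset V) (u w h : V), InP Δ → H ⊆ vs Δ → u ∈ H → w ∈ H → ¬ adj Δ u w →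
  Conn Δ B → B ⊆ H \ {u, w} → touch Δ {u} B → touch Δ {w} B → h ∈ B →
  (∀ F ∈ Δ, F ⊆ H → T ∪ F ∈ Δ) → Disjoint C H → Disjoint T H → ¬ touch Δ B C →
  InP (gad Δ (C ∪ T ∪ {u, w}) T u w h)

/-- **M8** The gadget has no separating face. Proof. `U = C ∪ T ∪ {u,w}`, `Γ = gad Δ U T u w h`, `vs Γ = h + U`. On
`U` the faces of `Γ` are those of `Δ` (`T + u`, `T + w` are faces of `Δ`); `h` is adjacent exactly to `T ∪ {u,w}`. Let
`F ∈ Γ` and `(h + U) - F = P ∪ Q` a splitting without edges. CLAIM: a part `P` contained in `C` gives a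
contradiction if `F - h ⊆ U` is a face of `Δ`: the neighbours of `P` in `Δ` are in `U` (`Gad.cl`) and not in `Q`, so
they are in `F - h`; `V - (F - h)` is connected and contains `P` and the vertex `h`, which is not adjacent to `P`
(as a vertex of `Δ`): contradiction. `F - h` is a face of `Δ` in all cases. (1) `h ∉ F`, say `h ∈ Q`: the elements of
`T ∪ {u,w}` not in `F` are adjacent to `h`, so `P ⊆ C`. (2) `h ∈ F`: `F - h ⊆ T + u` or `F - h ⊆ T + w`, say (symmetric)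
`w ∉ F`, and `w ∈ Q`. The elements of `T - F` are adjacent to `w` (`T + w` is a face), so they are in `Q`. If `u ∉ F`
and `u ∈ P`: then `T ⊆ F` (the elements of `T` are adjacent to `u`), and `(h + U) - F = C ∪ {u,w}` is connected:
contradiction. So `P ⊆ C`. -/
def StmtM8 : Prop := ∀ (V : Type) [Fintype V] [DecidableEq V] (Δ : Set (Finset V))
  (C T : Finset V) (u w h : V), IsCx Δ → (∀ F ∈ Δ, Conn Δ (vs Δ \ F)) → Gad Δ C T u w h →
  vs (gad Δ (C ∪ T ∪ {u, w}) T u w h) = insert h (C ∪ T ∪ {u, w}) ∧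
    ∀ F ∈ gad Δ (C ∪ T ∪ {u, w}) T u w h, Conn (gad Δ (C ∪ T ∪ {u, w}) T u w h)
      (insert h (C ∪ T ∪ {u, w}) \ F)

/-- **M9** The gadget has no edge facet, no separating pair and no separating triangle. Proof. `U`, `Γ` as in `M8`.
(1) Edge facet `xy`. `h ∈ {x,y}`: the other vertex is in `T` (contained in `h + u + T`) or is `u` or `w` (`T ≠ ∅`, contained
in `h + u + T`, `h + w + T`). `h ∉ {x,y}`: `{x,y} ∈ Δ` is not a facet of `Δ`: a face `F ∋ x, y, v` of `Δ`. If `v ∈ U` then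
`{x,y,v} ∈ Γ`. If `v ∉ U` then `x, y ∉ C` (`Gad.cl`), so `x, y ∈ T ∪ {u,w}`, not both in `{u,w}`, and `{x,y,h} ∈ Γ`. (2)
Nonadjacent `p, q` with `(h + U) - {p,q}` not connected, `P ∪ Q` a splitting. `h ∈ {p,q}`: the other one, `q`, is in
`C`; `T ∪ {u,w}` is connected (`T ≠ ∅`), so one part, `P`, is contained in `C - q`, its neighbours in `Δ` are in
`P + q`, but `V - q` is connected (`{q}` is a face): contradiction. `h ∉ {p,q}`, `h ∈ Q`: the elements of `T ∪ {u,w}`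
not in `{p,q}` are in `Q`, `P ⊆ C`, the neighbours of `P` in `Δ` are in `P ∪ {p,q}`, and `V - {p,q}` is connected
(`NoPair`; it contains `h`): contradiction. (3) A hollow triangle `M` with `(h + U) - M` not connected. `h ∈ M`: the
other two are adjacent elements of `T ∪ {u,w}`, so `M ⊆ h + u + T` or `M ⊆ h + w + T` is a face. `h ∉ M`: `M ∉ Δ`, as
in (2) `P ⊆ C`, and `V - M` is connected (`Cex.noTri`): contradiction. -/
def StmtM9 : Prop := ∀ (V : Type) [Fintype V] [DecidableEq V] (Δ : Set (Finset V))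
  (C T : Finset V) (u w h : V), Cex Δ → Gad Δ C T u w h → T.Nonempty →
  ¬ Two (gad Δ (C ∪ T ∪ {u, w}) T u w h)

/-- **M10** (uses `M8`, `M9`) Proof. `T ≠ ∅`: otherwise the neighbours of `C` are in `{u,w}` and `V - {u,w}` is not
connected (`NoPair`; it contains `h`). `Γ` has no separating face (`M8`) and `¬ Two Γ` (`M9`); as it has less vertices
than `Δ`, it is not irreducible (`Cex.hyp`), so it has a cone vertex `x`. `x ≠ h` (`h` is not adjacent to `C`),
`x ∉ C` (not adjacent to `h`), `x ≠ u, w` (not adjacent to each other; here use `{w}`, `{u}`). So `x ∈ T`. For `F ∈ Δ`,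
`F ⊆ U`: `x + F ∈ Γ` does not contain `h`; it is in `Δ` or a subset of `T + u` or `T + w`, which are faces of `Δ`. -/
def StmtM10 : Prop := ∀ (V : Type) [Fintype V] [DecidableEq V] (Δ : Set (Finset V))
  (C T : Finset V) (u w h : V), Cex Δ → Gad Δ C T u w h →
  InP (gad Δ (C ∪ T ∪ {u, w}) T u w h) → (insert h (C ∪ T ∪ {u, w})).card < (vs Δ).card →
  ∃ x ∈ T, ∀ F ∈ Δ, F ⊆ C ∪ T ∪ {u, w} → insert x F ∈ Δ

/-- **M11** (uses `J3`, `J6`, `J13`, `J14`, `M4`, `M5`, `M6`, `M7`, `M10`) Proof. Choose `Mx Δ t H`; `A = cv Δ H`, `t ∈ A`.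
`A ∪ F ∈ Δ` for faces `F ⊆ H` (`M4`). `V ≠ A ∪ H`: otherwise `t` is a cone vertex of `Δ` (a face `G` is contained in
`A ∪ (G ∩ H)`). Let `C` be a component of `V - (A ∪ H)`. `nb C` is not a face `F`: otherwise `A ∪ F ∈ Δ`,
`V - (A ∪ F)` is connected, contains `C` and `H - F ≠ ∅`, and `C` has no neighbours in the rest. Let `K ⊆ C` be
connected with `nb K ∉ Δ` and a minimal number of elements: `MinK Δ H K`. No element of `K` cones `H`, so `H ∪ K` is
irreducible (`J13`). If `|nb K| ≥ 3`: `M5`, contradiction to `Mx.max`. Otherwise `nb K = {u,w}`, `u, w` nonadjacent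
(`J3`). `nb C = {u,w}` by `M6`. `J14`: `H - {u,w}` is not connected; `B` a component of it, `h ∈ B`, touching `u, w`
(`J6`). `T = nb Δ C A`. `Gad Δ C T u w h`: `T + u, T + w ∈ Δ` by `M4`; the neighbours of `C` are in
`C ∪ A ∪ H`, so in `C ∪ T ∪ {u,w}`. `M7`: `InP`. `H` has at least four elements (`u`, `w`, two components), `C`, `T`,
`H` are disjoint, so the gadget has less vertices than `Δ`. `M10`: `x ∈ T` with `x + F ∈ Δ` for all faces
`F ⊆ C ∪ T ∪ {u,w}`. `x` cones `H ∪ K`: a face `F ⊆ H ∪ K` which meets `K` is contained in `K ∪ {u,w}`; a face `F ⊆ H`: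
`x ∈ A`. Contradiction to `Mx.max`. -/
def StmtM11 : Prop := ∀ (V : Type) [Fintype V] [DecidableEq V] (Δ : Set (Finset V)),
  Cex Δ → HypE V ((vs Δ).card + 1) → (∃ t H, IrrS Δ H ∧ Cov Δ t H) → False

/-! ## Z. The start: some irreducible set has a cone vertex -/

/-- **Z1** Proof. `CM [X,A,B,C]`, `[A,B,C]` is unfilled, so at least two of `[X,A,B], [X,A,C], [X,B,C]` are filled,
and exactly one is unfilled; the same for `Y`. If the unfilled pairs for `X` and `Y` are different, say `[X,A,B]` and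
`[Y,A,C]`, `k5` for `A; X, B; Y, C` gives a contradiction. If they are equal, say `[X,A,B]`, `[Y,A,B]`, then
`[X∪Y,A,B]` is unfilled: contradiction. -/
def StmtZ1 : Prop := ∀ (V : Type) [Fintype V] [DecidableEq V] (Δ : Set (Finset V))
  (A B C X Y : Finset V), InP Δ → Hol Δ A B C → Conn Δ X → Conn Δ Y →
  [A, B, C, X, Y].Pairwise (fun S T => Disjoint S T) → touch Δ X Y → Ful Δ (X ∪ Y) A B C →
  ¬ Ful Δ X A B C → ¬ Ful Δ Y A B C → touch Δ X A → touch Δ X B → touch Δ X C →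
  touch Δ Y A → touch Δ Y B → touch Δ Y C → False

/-- **Z2** (uses `J1`) Proof. A face showing that `[X∪Y,A,C]` is filled meets `Y`, as `X` does not touch `C`: `[Y,A,C]`
and in the same way `[Y,B,C]` are filled. As `Y` does not fill all pairs, `[Y,A,B]` is unfilled, so `[X,A,B]` is
filled. `k4` for `Y, A, B, X`: `[Y,A,X]` or `[Y,B,X]` is filled. Not both: `Hol Y A B`, `X` fills all its pairs, `C`
touches `Y, A, B`, so `X` touches `C` (`J1`): contradiction. -/
def StmtZ2 : Prop := ∀ (V : Type) [Fintype V] [DecidableEq V] (Δ : Set (Finset V))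
  (A B C X Y : Finset V), InP Δ → Hol Δ A B C → Conn Δ X → Conn Δ Y →
  [A, B, C, X, Y].Pairwise (fun S T => Disjoint S T) → touch Δ X Y → Ful Δ (X ∪ Y) A B C →
  ¬ Ful Δ Y A B C → ¬ touch Δ X C →
  touch Δ Y A ∧ touch Δ Y B ∧ touch Δ Y C ∧ fill Δ [Y, A, C] ∧ fill Δ [Y, B, C] ∧
    ¬ fill Δ [Y, A, B] ∧ fill Δ [X, A, B] ∧ (fill Δ [X, Y, A] ∨ fill Δ [X, Y, B]) ∧
    ¬ (fill Δ [X, Y, A] ∧ fill Δ [X, Y, B])

/-- **Z3** (uses `Z2`; the minor `X6`) Three small sets. Proof. `X ∪ Y ∪ W` fills all pairs. `Y ∪ W` does not fill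
`A, B` (`Y` does not touch `B`, `W` does not touch `A`). `Z2` for `(X, Y∪W)`: exactly one of `[X,Y∪W,A]`, `[X,Y∪W,B]` is
filled; the first one is `[X,Y,A]` (`W` does not touch `A`), the second one `[X,W,B]`. `Z2` for `(Y, X∪W)` (with `B, C`
exchanged): exactly one of `[X,Y,A]`, `[Y,W,C]` is filled. (1) `X` does not touch `Y`: `[X,Y,A]` is unfilled, so
`[X,W,B]` and `[Y,W,C]` are filled. `InP.x6` for `A, X, B, W, C, Y`: filled: `AXB, XBW, BWC, WCY, CYA`; unfilled `ABC`;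
not touching: `A W`, `X C`, `X Y`, `B Y`. (2) `X` touches `Y`: `Z2` for `(W, X∪Y)` (hollow model `B, C, A`): exactly
one of `[W,X,B]`, `[W,Y,C]` is filled. Three statements, any two of them exactly one true: contradiction. -/
def StmtZ3 : Prop := ∀ (V : Type) [Fintype V] [DecidableEq V] (Δ : Set (Finset V))
  (A B C X Y W : Finset V), InP Δ → Hol Δ A B C → Conn Δ X → Conn Δ Y → Conn Δ W →
  [A, B, C, X, Y, W].Pairwise (fun S T => Disjoint S T) → ¬ touch Δ X C → ¬ touch Δ Y B →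
  ¬ touch Δ W A → touch Δ X W → touch Δ Y W → fill Δ [X, A, B] → fill Δ [Y, A, C] →
  fill Δ [W, B, C] → False

/-- **Z4** (uses `L4`, `Z2`, `Z3`) Proof. Let `|D| ≥ 2` and suppose that no vertex `t ∈ D` with `D - t` connected
touches `A`, `B` and `C`. `|D| = 2`: `D = {v,v'}`; `v` does not touch one of the sets, say `C` (symmetric), `Z2` for
`({v}, {v'})`: `v'` touches `A, B, C`: contradiction. `|D| ≥ 3`: `v, v'` from `L4`, `W = D - {v,v'}`. `v` does not touch one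
of the sets, say `C`; `Z2` for `({v}, D - v)`: `[v,A,B]` is filled, `[D-v,A,B]` is not. If `v'` does not touch `C`, then
`Z2` for `({v'}, D - v')`: `[v',A,B]` is filled, but `v' ∈ D - v`. So `v'` does not touch `A` or `B`, say `B`: `[v',A,C]`
is filled, `[D-v',A,C]` is not. `[W,B,C]` is filled, since `D` fills it and `v` does not touch `C`, `v'` does not touch
`B`. `W` does not touch `A`: otherwise `CM [A,W,B,C]` with `[A,B,C]`, `[A,W,B]`, `[A,W,C]` unfilled (`k4three`). `W`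
touches `v` and `v'` (`D - v'`, `D - v` are connected). `Z3` for `X = {v}`, `Y = {v'}`, `W`. -/
def StmtZ4 : Prop := ∀ (V : Type) [Fintype V] [DecidableEq V] (Δ : Set (Finset V))
  (A B C D : Finset V), InP Δ → Hol Δ A B C → MinF Δ A B C D → 2 ≤ D.card →
  ∃ t ∈ D, Conn Δ (D \ {t}) ∧ touch Δ {t} A ∧ touch Δ {t} B ∧ touch Δ {t} C

/-- **Z5** (uses `J1`, `L2`, `L3`, `L6`) Proof. `S0 = V - {t,a,b}` is connected, contains `X` and `c`. Let `E` be the
component of `S0 - X` containing `c`; it touches `X` (`Conn.comp_touch`) in some `e ≠ c`; let `E0` be the component of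
`E - c` containing `e`; it touches `c`. `L6`: `Q ⊆ E0` with `MinT Δ X {c} Q`; `q ∈ Q` adjacent to `c`, the only one
(`L2`). (1) `CM [X∪Q, t, a, b, c]`, `{t,a,b}` is unfilled; `k5` for `a; t, b; X∪Q, c`, for `b` and for `t`: `[X∪Q,a,c]`,
`[X∪Q,b,c]`, `[X∪Q,t,c]` are filled, and `X` does not touch `c`: so `{q,a,c}, {q,b,c}, {q,t,c} ∈ Δ`. If `{q,a,b} ∈ Δ` we are
done. Suppose not. (2) `Q = {q}`: `k5` for `a; q, b; X, t`: `{a,q,b}` and `[a,X,t]` are unfilled: contradiction. (3)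
`|Q| ≥ 2`: `L3`: the vertex is `q`; `Q1 = Q - q` is connected, touches `X`, not `c`, and `q` does not touch `X`. `CM
[X∪Q1, q, t, a, b]`; `{t,a,b}`, `{q,a,b}` are unfilled. `k5` for `a; t, b; X∪Q1, q`, for `b`, `t`: `[X∪Q1,q,a]`, `[X∪Q1,q,b]`,
`[X∪Q1,q,t]` are filled, so `Q1` touches `a, b, t`. `k5` for `a; q, b; X∪Q1, t`: `[X∪Q1,t,a]` is filled, and `[X,t,a]`
is not: `[Q1,t,a]` is filled. `CM [Q1, X, t, a, b]`, `[X,t,a]` is unfilled: `k5` for `a; X, t; Q1, b` and for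
`t; X, a; Q1, b`: `[Q1,a,b]`, `[Q1,t,b]` are filled. `J1` for `Hol t a b`, `T = Q1`, `K = {c}`: `Q1` touches `c`:
contradiction. -/
def StmtZ5 : Prop := ∀ (V : Type) [Fintype V] [DecidableEq V] (Δ : Set (Finset V))
  (X : Finset V) (a b c t : V), InP Δ → Conn Δ (vs Δ \ {t, a, b}) → adj Δ a b → adj Δ a c →
  adj Δ b c → adj Δ t a → adj Δ t b → adj Δ t c → ({a, b, c} : Finset V) ∉ Δ →
  ({t, a, c} : Finset V) ∈ Δ → ({t, b, c} : Finset V) ∈ Δ → ({t, a, b} : Finset V) ∉ Δ →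
  Conn Δ X → t ∉ X → a ∉ X → b ∉ X → c ∉ X → ¬ touch Δ X {c} → fill Δ [X, {a}, {b}] →
  fill Δ [X, {t}, {b}] → ¬ fill Δ [X, {t}, {a}] →
  ∃ q, q ≠ a ∧ q ≠ b ∧ q ≠ c ∧ ({q, a, b} : Finset V) ∈ Δ ∧ ({q, a, c} : Finset V) ∈ Δ ∧
    ({q, b, c} : Finset V) ∈ Δ

/-- **Z6** (uses `J10`, `Z1`, `Z2`, `Z4`, `Z5`) A hollow triangle. Proof. `M = {a,b,c}`, `V - M` is connected
(`Cex.noTri`) and fills all pairs: `ab` is not a facet of `Δ`, so some face contains `a, b, v`, `v ≠ c`. Let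
`D ⊆ V - M` be connected, filling all pairs, with a minimal number of elements: `MinF`. `|D| = 1`: `D = {t}`, `t` cones
`M` (`J10`), `M` is irreducible. `|D| ≥ 2`: `Z4`: `t ∈ D`, `X = D - t` connected, `t ~ a, b, c`. `Z1`: `X` does not touch
all of `a, b, c`; say (symmetric) `X` does not touch `c`. `Z2` for `(X, {t})`: `{t,a,c}, {t,b,c} ∈ Δ`, `{t,a,b} ∉ Δ`,
`[X,a,b]` is filled and exactly one of `[X,t,a]`, `[X,t,b]` is filled; by symmetry (`a, b`) let it be `[X,t,b]`. `Z5`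
(`{t,a,b}` is a hollow triangle, `Cex.noTri`): `q` cones `M`. -/
def StmtZ6 : Prop := ∀ (V : Type) [Fintype V] [DecidableEq V] (Δ : Set (Finset V))
  (a b c : V), Cex Δ → adj Δ a b → adj Δ a c → adj Δ b c → ({a, b, c} : Finset V) ∉ Δ →
  ∃ t H, IrrS Δ H ∧ Cov Δ t H

/-- **Z7** (uses `J5`) Every vertex of a cycle has exactly two neighbours, they are not adjacent. Proof. `N` = the
neighbours of `z` in `Z`. `Z ≠ z + N`: otherwise `z` cones `Z` (no hollow triangles: `clq_mem`). Let `C0` be a component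
of `Z - (z + N)`. `nb Δ C0 N` is not a face (it would separate `C0` from `z` in `Z`), so it contains nonadjacent
`a, b`. `Hol {z} {a} (b + C0)`; by `J5` it contains an irreducible set, so `Z = {z,a,b} ∪ C0` by minimality, and
`N = {a,b}`. -/
def StmtZ7 : Prop := ∀ (V : Type) [Fintype V] [DecidableEq V] (Δ : Set (Finset V))
  (Z : Finset V) (z : V), InP Δ → Flag Δ → Cyc Δ Z → z ∈ Z →
  ∃ a ∈ Z, ∃ b ∈ Z, a ≠ b ∧ ¬ adj Δ a b ∧ nb Δ {z} Z = {a, b}

/-- **Z8** (uses `J5`, `Z7`) Proof. A face meeting `A, B, C` contains three pairwise adjacent elements of `Z`, but the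
two neighbours of an element are not adjacent (`Z7`). So `Hol A B C`. By `J5` it contains an irreducible set, which
is `Z` by minimality. -/
def StmtZ8 : Prop := ∀ (V : Type) [Fintype V] [DecidableEq V] (Δ : Set (Finset V))
  (Z A B C : Finset V), InP Δ → Flag Δ → Cyc Δ Z → A ⊆ Z → B ⊆ Z → C ⊆ Z → CM Δ [A, B, C] →
  Hol Δ A B C ∧ A ∪ B ∪ C = Z

/-- **Z9** (uses `Z8`) Proof. `Z - A ≠ ∅`. Suppose it is not connected, let `E1 ≠ E2` be two components.
`nb Δ E1 A` is not a face (otherwise it separates `E1` from `E2` in `Z`), so it contains nonadjacent `p, q` (`Flag`).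
`grow`: `A = A' ∪ A''`, connected, touching, `p ∈ A'`, `q ∈ A''`. `Z8` for `A', A'', E1`: the union is `Z`, but it does
not contain `E2`. -/
def StmtZ9 : Prop := ∀ (V : Type) [Fintype V] [DecidableEq V] (Δ : Set (Finset V))
  (Z A : Finset V), InP Δ → Flag Δ → Cyc Δ Z → A ⊆ Z → A ≠ Z → Conn Δ A → Conn Δ (Z \ A)

/-- **Z10** (uses `Z8`, `Z9`) Partitions in three connected sets. Proof. `B ∪ C = Z - A` is connected (`Z9`), so `B`
touches `C`; similarly the other pairs. The edge between `A` and `B` is unique: let `ab`, `a'b'` be two edges. If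
`a ≠ a'`: `grow`: `A = A1 ∪ A2`, `a ∈ A1`, `a' ∈ A2`, connected, touching; `Z8` for `A1, A2, B`: the union is `Z`, but it
does not contain `C`. If `b ≠ b'`: the same. -/
def StmtZ10 : Prop := ∀ (V : Type) [Fintype V] [DecidableEq V] (Δ : Set (Finset V))
  (Z A B C : Finset V), InP Δ → Flag Δ → Cyc Δ Z → Conn Δ A → Conn Δ B → Conn Δ C →
  [A, B, C].Pairwise (fun S T => Disjoint S T) → A ∪ B ∪ C = Z →
  CM Δ [A, B, C] ∧ ∀ a ∈ A, ∀ b ∈ B, ∀ a' ∈ A, ∀ b' ∈ B, adj Δ a b → adj Δ a' b' →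
    a = a' ∧ b = b'

/-- **Z11** (uses `Z8`, `Z9`) The boundary of an arc. Proof. `I = Z - O` is connected (`Z9`), `|I| ≥ 3`. `nb Δ O I` has
at most two elements: let `x, y, w` be three different ones. `grow`: `I = Ix ∪ Iy`, connected, touching, `x ∈ Ix`,
`y ∈ Iy`; `w` is in one of them, say `w ∈ Ix` (symmetric). `grow`: `Ix = I1 ∪ I2`, connected, touching, `x ∈ I1`,
`w ∈ I2`. `Z8` for `I1, I2, O`: the union is `Z`, but it does not contain `Iy`. So `Z - (O ∪ nb Δ O I)` is nonempty,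
`nb Δ O I` is not a face (it would separate), so it consists of two nonadjacent vertices (`J3` or directly: a set
with at most two elements which is not a face). -/
def StmtZ11 : Prop := ∀ (V : Type) [Fintype V] [DecidableEq V] (Δ : Set (Finset V))
  (Z O : Finset V), InP Δ → Flag Δ → Cyc Δ Z → O ⊆ Z → Conn Δ O → 3 ≤ (Z \ O).card →
  ∃ z1 ∈ Z \ O, ∃ z2 ∈ Z \ O, z1 ≠ z2 ∧ ¬ adj Δ z1 z2 ∧ nb Δ O (Z \ O) = {z1, z2}

/-- **Z12** (uses `Z7`, `Z8`, `Z9`, `Z10`) The gap lemma. Proof. `N = nb Δ D Z`, `O = Z - N`. Suppose `O ≠ ∅` is not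
connected, `O1 ≠ O2` two components of `O`, `R = Z - (O1 ∪ O2)`. `R ≠ ∅` (`Z` is connected, `O1` does not touch `O2`). Every
component `P` of `R` touches `O1` and `O2`: if it does not touch `O2`, then it has no neighbours in `Z - O1`, which is
connected (`Z9`) and contains `O2`: contradiction. `R` is not connected: otherwise `Z - R = O1 ∪ O2` is connected
(`Z9`). Let `P1 ≠ P2` be two components of `R`. `Z8` for `O1 ∪ P1, O2, P2`: `Z = O1 ∪ O2 ∪ P1 ∪ P2`. A vertex of `R`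
adjacent to `O1` or `O2` is not in `O`, so it is in `N`: `P1` and `P2` meet `N`. `N ⊆ P1 ∪ P2` has three elements, so
one of them, say `P1`, has at least two elements. Let `x1, x2 ∈ P1` be adjacent to `O1`, `O2`. `x1 ≠ x2`: otherwise this
vertex has a neighbour in `O1`, in `O2` and in `P1`, contradiction to `Z7`. `grow`: `P1 = P' ∪ P''`, connected,
touching, `x1 ∈ P'`, `x2 ∈ P''`. `A1 = O1 ∪ P'`, `A2 = O2 ∪ P''`, `A3 = P2`: `CM` (`Z10`), `Hol` (`Z8`). `D` touches `A1`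
(`x1`), `A2`, `A3`. `[D,A1,A3]` is unfilled: an element of `A1` touching `D` is in `P'`, which does not touch `P2`; the
same for `[D,A2,A3]`. `k4three` for `A3, A1, A2, D`: contradiction. -/
def StmtZ12 : Prop := ∀ (V : Type) [Fintype V] [DecidableEq V] (Δ : Set (Finset V))
  (Z D : Finset V), InP Δ → Flag Δ → Cyc Δ Z → Conn Δ D → Disjoint D Z →
  3 ≤ (nb Δ D Z).card → nb Δ D Z = Z ∨ Conn Δ (Z \ nb Δ D Z)

/-- **Z13** (uses `J5`) Another component. `E` is a connected set outside the cycle `Z`. Proof. (1) `nb Δ E Z = Z` and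
`E` does not fill the edge `ab` of `Z`: `Hol {a} {b} E`, `J5`. (2) `O = Z - nb Δ E Z` nonempty: connected (`Z12`),
`nb Δ O (Z - O) = {p,q}` (`Z11`). `Hol {p} (q + E) O`: `p, q` touch `E` (they are in `nb Δ E Z`) and `O`; a face
`{p,y,o}`: `y = q` is impossible, `y ∈ E` is impossible (`E` does not touch `O`). `J5`. -/
def StmtZ13 : Prop := ∀ (V : Type) [Fintype V] [DecidableEq V] (Δ : Set (Finset V))
  (Z E : Finset V), InP Δ → Flag Δ → Cyc Δ Z → Conn Δ E → Disjoint E Z →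
  3 ≤ (nb Δ E Z).card →
  (∀ x ∈ Z, ∀ y ∈ Z, adj Δ x y → fill Δ [E, {x}, {y}]) ∨
  (∃ a ∈ Z, ∃ b ∈ Z, ∃ H, H ⊆ {a, b} ∪ E ∧ IrrS Δ H) ∨
  ∃ p ∈ Z, ∃ q ∈ Z, p ≠ q ∧ ¬ adj Δ p q ∧ Conn Δ (Z \ nb Δ E Z) ∧
    nb Δ (Z \ nb Δ E Z) (nb Δ E Z) = {p, q} ∧
    ∃ H, H ⊆ {p, q} ∪ E ∪ (Z \ nb Δ E Z) ∧ IrrS Δ H

/-- **Z14** (uses `Z7`, `Z8`, `Z11`, `Z12`, `Z13`) A full pair. Proof. (0) `V` is irreducible, so there is a minimal
irreducible `Z0` (`Cyc`). `Z0 ≠ V`: otherwise the edges of `Z0` are edge facets (`Z7`: no common neighbours). So there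
are connected `D` such that `V - D` contains an irreducible set; choose one with `|D|` maximal, `R = V - D`, and a
minimal irreducible `Z ⊆ R`. (1) If `Z' ⊆ R` is irreducible, all vertices of `R` touching `D` are in `Z'`: for `x ∈ R - Z'`
touching `D` the set `D + x` is better. In particular `D` is a component of `V - Z`. (2) For every component `E` of
`V - Z`, `|nb Δ E Z| ≥ 3`: it is not a face (it would separate `E` from `Z - nb Δ E Z ≠ ∅`), so it contains nonadjacent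
`p, q`, and it is not `{p,q}` (`NoPair`; `Z - {p,q} ≠ ∅`). (3) Let `E ≠ D` be a component of `V - Z`; `E ⊆ R`. If `E` fills all
edges of `Z` we are done. The second alternative of `Z13` gives with (1) `nb Δ D Z ⊆ {a,b}`: contradiction to (2).
So: `O_E = Z - nb Δ E Z` is connected, `nb Δ O_E (nb Δ E Z) = {p,q}` and `nb Δ D Z ⊆ {p,q} ∪ O_E`. (4) `nb Δ D Z = Z`: then
there is no other component `E` (otherwise `nb Δ E Z ⊆ {p,q}`), `V = D ∪ Z`. An edge `xy` of `Z` is not a facet of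
`Δ`: some face contains `x, y, v`, `v ∉ Z` (`Z7`), so `v ∈ D`: `D` fills `xy`. Done. (5) `nb Δ D Z ≠ Z`: `O = Z - nb Δ D Z`
is connected (`Z12`), `nb Δ O (nb Δ D Z) = {z1,z2}`, nonadjacent (`Z11`). `S = D ∪ (nb Δ D Z - {z1,z2})` has no neighbours
outside `S ∪ {z1,z2}`; as `O ≠ ∅` is disjoint from it, `V - {z1,z2}` is not connected: contradiction to `NoPair`. Proof
of the claim: the neighbours of `D` are in `nb Δ D Z`. Let `x ∈ nb Δ D Z - {z1,z2}`; its neighbours in `Z` are not in `O`,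
so they are in `nb Δ D Z`. Suppose `x` touches a component `E ≠ D` of `V - Z`. With (3): `x ∉ O_E`, so `x ∈ {p,q}`, say
`x = p`. Its two neighbours in `Z` (`Z7`) are in `nb Δ D Z ⊆ {p,q} ∪ O_E` and different from `p` and `q`, so they are in
`O_E`: `y1, y2`. `grow`: `O_E = O' ∪ O''`, connected, touching, `y1 ∈ O'`, `y2 ∈ O''`. `Z8` for `{x}, O', O''`: the union is
`Z`, but it does not contain `q`. -/
def StmtZ14 : Prop := ∀ (V : Type) [Fintype V] [DecidableEq V] (Δ : Set (Finset V)),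
  Cex Δ → Flag Δ → ∃ Z D, Cyc Δ Z ∧ Conn Δ D ∧ Disjoint D Z ∧
    ∀ x ∈ Z, ∀ y ∈ Z, adj Δ x y → fill Δ [D, {x}, {y}]

/-- **Z15** (the minor `X6`) Two complementary arcs. Proof. (1) `[X,Y,z1]` or `[X,Y,z2]` is filled: `k4` for
`Y ∪ Q, z1, z2 + P, X` (`CM`: `z1 ~ P`, `Q ~ z1, z2`, `X ~ Y`, `X` touches `z1` and `P`): `[Y∪Q,z1,z2+P]` is unfilled
(`z1, z2` are not adjacent, `P` touches neither `Y` nor `Q`); so `[Y∪Q,z1,X]` is filled, i.e. `[Y,z1,X]` (`X` does not
touch `Q`), or `[Y∪Q,z2+P,X]`, i.e. `[Y,z2,X]` (`Y` does not touch `P`). (2) Not both: `R = {z2} ∪ P ∪ Q`: `CM [X,Y,z1,R]`,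
all four triples are filled: `[X,z1,R]` by `P`, `[Y,z1,R]` by `Q`, `[X,Y,z1]`, `[X,Y,R]` by `z2`; `k4all`: a face
`{x,y,z1,r}`: `r = z2` is not adjacent to `z1`, `r ∈ P` does not touch `Y`, `r ∈ Q` does not touch `X`: contradiction.
(3) Let `[X,Y,z2]` be filled and `[X,Y,z1]` not (the other case is symmetric): `InP.x6` for `z1, P, X, z2, Y, Q`: filled
`z1 P X, P X z2, X z2 Y, z2 Y Q, Y Q z1`; unfilled `z1 X Y`; not touching `z1 z2`, `P Y`, `P Q`, `X Q`. -/
def StmtZ15 : Prop := ∀ (V : Type) [Fintype V] [DecidableEq V] (Δ : Set (Finset V))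
  (P Q X Y : Finset V) (z1 z2 : V), InP Δ → Conn Δ P → Conn Δ Q → Conn Δ X → Conn Δ Y →
  [{z1}, {z2}, P, Q, X, Y].Pairwise (fun A B => Disjoint A B) → ¬ adj Δ z1 z2 →
  ¬ touch Δ P Q → touch Δ X Y → ¬ touch Δ X Q → ¬ touch Δ Y P → fill Δ [{z1}, P, X] →
  fill Δ [{z2}, P, X] → fill Δ [{z1}, Q, Y] → fill Δ [{z2}, Q, Y] → False

/-- **Z16** (uses `Z10`) Proof. `I = nb Δ {v} Z`, `O = Z - I` connected, `nb Δ O I = {z1,z2}`. Suppose `Y` touches
`x ∈ I`, `x ≠ z1, z2`. `grow`: `I = I1 ∪ I2`, connected, touching, `f1 ∈ I1`, `f2 ∈ I2`. `Z10` for `I1, I2, O`: `f1 f2` is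
the only edge between `I1` and `I2`, and both touch `O`, so `z1 ∈ I1`, `z2 ∈ I2` (or conversely: exchange the names).
Let `x ∈ I1` (the case `x ∈ I2` is symmetric). `grow`: `I1 = J ∪ J'`, connected, touching, `z1 ∈ J`, `x ∈ J'`. `Z10` for
`J, J', I2 ∪ O`: `J'` touches `I2 ∪ O`, it does not touch `O`, so it touches `I2`, hence `f1 ∈ J'`, and `J` does not touch
`I2`. `k5` for `I2; Y, J'; v, J ∪ O`: `CM`: `Y` touches `z1, z2, x` and `v`; `v` touches `z1, z2, x`; `I2` touches `O` by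
`z2`. `[I2,Y,J']` is unfilled: the only edge is `f1 f2`, which `Y` does not fill. `[I2,v,J∪O]` is unfilled: `v` does
not touch `O`, `J` does not touch `I2`. Contradiction. -/
def StmtZ16 : Prop := ∀ (V : Type) [Fintype V] [DecidableEq V] (Δ : Set (Finset V))
  (Z Y : Finset V) (v f1 f2 z1 z2 : V), InP Δ → Flag Δ → Cyc Δ Z → v ∈ vs Δ → v ∉ Z → Conn Δ Y →
  Disjoint Y Z → v ∉ Y → touch Δ {v} Y → f1 ∈ nb Δ {v} Z → f2 ∈ nb Δ {v} Z → adj Δ f1 f2 →
  ¬ fill Δ [Y, {f1}, {f2}] → Conn Δ (nb Δ {v} Z) → Conn Δ (Z \ nb Δ {v} Z) → z1 ≠ z2 →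
  nb Δ (Z \ nb Δ {v} Z) (nb Δ {v} Z) = {z1, z2} → touch Δ Y {z1} → touch Δ Y {z2} →
  ∀ x ∈ nb Δ {v} Z, x ≠ z1 → x ≠ z2 → ¬ touch Δ Y {x}

/-- **Z17** (uses `Z7`, `Z9`, `Z10`, `Z11`, `Z12`, `Z15`, `Z16`) Proof. The edge `f1 f2` not filled by `Y` is filled by `v`:
`f1, f2 ∈ I = nb Δ {v} Z`. If `I = {f1,f2}`: `a = f1`, `b = f2`; the other edges are not filled by `v`, so by `Y`. Suppose
`|I| ≥ 3`. `O = Z - I ≠ ∅` is connected (`Z12`), `I` is connected (`Z9`), `nb Δ O I = {z1,z2}`, nonadjacent (`Z11`). The edges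
of `Z` not contained in `I` are filled by `Y`, so `Y` touches `z1` and `z2`. `Z16`: `Y` does not touch
`P = I - {z1,z2}`. `P ≠ ∅` is connected: `P = Z - (O ∪ {z1,z2})`, `Z9`. `Z10` for `P, z1 + O, z2`: `z2` touches `P`, and in the
same way `z1`. `P` does not touch `O`. `{v,z1,p} ∈ Δ` for `p ∈ P` adjacent to `z1` (`Flag`), the same for `z2`; `Y` fills
an edge between `z1` (`z2`) and `O`. `Z15` for `P, Q = O, X = {v}, Y`. -/
def StmtZ17 : Prop := ∀ (V : Type) [Fintype V] [DecidableEq V] (Δ : Set (Finset V))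
  (Z Y : Finset V) (v : V), InP Δ → Flag Δ → Cyc Δ Z → v ∈ vs Δ → v ∉ Z → Conn Δ Y →
  Disjoint Y Z → v ∉ Y → touch Δ {v} Y → nb Δ {v} Z ≠ Z →
  (∀ x ∈ Z, ∀ y ∈ Z, adj Δ x y → fill Δ [{v}, {x}, {y}] ∨ fill Δ [Y, {x}, {y}]) →
  (∃ x ∈ Z, ∃ y ∈ Z, adj Δ x y ∧ ¬ fill Δ [Y, {x}, {y}]) →
  ∃ a ∈ Z, ∃ b ∈ Z, adj Δ a b ∧ nb Δ {v} Z = {a, b} ∧ ¬ fill Δ [Y, {a}, {b}] ∧
    ∀ x ∈ Z, ∀ y ∈ Z, adj Δ x y → ({x, y} : Finset V) ≠ {a, b} → fill Δ [Y, {x}, {y}]

/-- **Z18** (uses `Z7`, `Z8`, `Z9`, `Z10`) Two disjoint edges. Proof. `W` touches `a, b, c, d`: `a` has another neighbour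
`e ≠ b` in `Z` (`Z7`), the edge `ae` is different from `ab` and `cd`, so it is filled by `W`; the same for `b, c, d`.
`R = Z - {a,b}` is connected (`Z9`). `grow`: `R = Rc ∪ Rd`, connected, touching, `c ∈ Rc`, `d ∈ Rd`. `Z10` for
`Rc, Rd, {a,b}`: `cd` is the only edge between `Rc` and `Rd`, both touch `{a,b}`. `a` has exactly one neighbour other than
`b`, and `b` exactly one other than `a`; so `a` touches `Rc`, not `Rd`, and `b` touches `Rd`, not `Rc` (or conversely: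
exchange `a, b`). `k4three` for `b + Rd, {a}, Rc, W`: `[b+Rd,a,Rc]` is unfilled (`Z8`); `[b+Rd,a,W]`: the edge is `ab`,
unfilled by `W`; `[b+Rd,Rc,W]`: the edge is `cd`, unfilled by `W`. Contradiction. -/
def StmtZ18 : Prop := ∀ (V : Type) [Fintype V] [DecidableEq V] (Δ : Set (Finset V))
  (Z W : Finset V) (a b c d : V), InP Δ → Flag Δ → Cyc Δ Z → Conn Δ W → Disjoint W Z →
  a ∈ Z → b ∈ Z → c ∈ Z → d ∈ Z → adj Δ a b → adj Δ c d → a ≠ c → a ≠ d → b ≠ c → b ≠ d →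
  ¬ fill Δ [W, {a}, {b}] → ¬ fill Δ [W, {c}, {d}] →
  (∀ x ∈ Z, ∀ y ∈ Z, adj Δ x y → ({x, y} : Finset V) ≠ {a, b} → ({x, y} : Finset V) ≠ {c, d} →
    fill Δ [W, {x}, {y}]) → False

/-- **Z19** (uses `Z3`, `Z7`, `Z8`, `Z9`, `Z10`) Two edges with a common vertex `b`. Proof. `b` has the neighbours `a, c` in
`Z`, they are not adjacent (`Z7`). `Z - b` is connected (`Z9`), `grow`: `Z - b = A ∪ C`, connected, touching,
`a ∈ A`, `c ∈ C`. `Hol {b} A C` (`Z8`, `Z10`). `W` fills the edge between `A` and `C` (it is different from `ab`, `bc`). `W`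
does not touch `b`: otherwise `k4three` for `{b}, A, C, W`: `[b,A,W]` is unfilled (the only neighbour of `b` in `A` is
`a`), `[b,C,W]` as well. `Z3` for the hollow model `{b}, A, C` and `X = {v}`, `Y = {v'}`, `W`: `v` is adjacent only to
`a, b`, `v'` only to `b, c`; `{v,a,b}, {v',b,c} ∈ Δ` (`Flag`). -/
def StmtZ19 : Prop := ∀ (V : Type) [Fintype V] [DecidableEq V] (Δ : Set (Finset V))
  (Z W : Finset V) (a b c v v' : V), InP Δ → Flag Δ → Cyc Δ Z → Conn Δ W → Disjoint W Z →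
  a ∈ Z → b ∈ Z → c ∈ Z → adj Δ a b → adj Δ b c → a ≠ c → v ∉ Z → v' ∉ Z → v ∉ W → v' ∉ W →
  v ≠ v' → nb Δ {v} Z = {a, b} → nb Δ {v'} Z = {b, c} → touch Δ {v} W → touch Δ {v'} W →
  ¬ fill Δ [W, {a}, {b}] → ¬ fill Δ [W, {b}, {c}] →
  (∀ x ∈ Z, ∀ y ∈ Z, adj Δ x y → ({x, y} : Finset V) ≠ {a, b} → ({x, y} : Finset V) ≠ {b, c} →
    fill Δ [W, {x}, {y}]) → False

/-- **Z20** (uses `L1`, `L4`, `Z7`, `Z17`, `Z18`, `Z19`) Proof. Replace `D` by a connected subset with a minimal number of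
elements which fills all edges of `Z`. Suppose that no vertex of `D` is adjacent to all of `Z`. `|D| = 1`: every
`z ∈ Z` is in an edge (`Z7`), so `v` is adjacent to all of `Z`: contradiction. For `v ∈ D` with `D - v` connected (`|D| ≥ 2`):
`Z17` with `Y = D - v`: `nb Δ {v} Z = {a,b}` is an edge, `D - v` fills exactly the other edges. `|D| = 2`: `D = {v,v'}`,
`nb Δ {v} Z = {a,b}`, `nb Δ {v'} Z = {c,d}`, and `{v'}` fills all edges other than `ab`, so these have both ends in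
`{c,d}`: all edges other than `ab` are equal to `cd`. `a` has a neighbour `e ≠ b`, `b` has a neighbour `e' ≠ a` (`Z7`), so
`{a,e} = {c,d} = {b,e'}`: contradiction. `|D| ≥ 3`: `v, v'` from `L4`, `W = D - {v,v'}`; `nb Δ {v} Z = {a,b}`,
`nb Δ {v'} Z = {c,d}`. `{a,b} ≠ {c,d}`: `D - v` does not fill `ab`, but `{v',c,d} ∈ Δ` (`Flag`) and `v' ∈ D - v`. `W` fills
neither `ab` nor `cd`, and all other edges (`D` fills them, `v` fills only `ab`, `v'` only `cd`). `W` touches `v`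
and `v'`. `Z18` if the edges are disjoint, otherwise `Z19`. -/
def StmtZ20 : Prop := ∀ (V : Type) [Fintype V] [DecidableEq V] (Δ : Set (Finset V))
  (Z D : Finset V), InP Δ → Flag Δ → Cyc Δ Z → Conn Δ D → Disjoint D Z →
  (∀ x ∈ Z, ∀ y ∈ Z, adj Δ x y → fill Δ [D, {x}, {y}]) → ∃ v ∈ D, nb Δ {v} Z = Z

/-- **Z21** (uses `J10`, `Z6`, `Z14`, `Z20`) The start. Proof. If `Δ` has a hollow triangle: `Z6`. Otherwise `Flag Δ`,
`Z14`, `Z20`: `v` is adjacent to all of `Z`, and `v` cones `Z` (`J10`, `Flag`). -/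
def StmtZ21 : Prop := ∀ (V : Type) [Fintype V] [DecidableEq V] (Δ : Set (Finset V)),
  Cex Δ → ∃ t H, IrrS Δ H ∧ Cov Δ t H

/-- **S2** (uses `K13`, `M11`, `Z21`) Proof. Strong induction on the number of vertices of `Δ` proves `HypT V n` for all
`n`. Let `HypT V n` hold, `|vs Δ| = n`, and suppose `¬ Two Δ`: `Cex Δ`. `K13` gives `HypE V (n + 1)`. `Z21` and
`M11` give a contradiction. -/
def StmtS : Prop := ∀ (V : Type) [Fintype V] [DecidableEq V] (Δ : Set (Finset V)),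
  InP Δ → Irr Δ → Two Δ

end Pool.Agent.Lib.MP_73b196_co.Tw
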